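import Pool.Agent.TH204.WR.W5
import Pool.Agent.TH204.WR.W6

/-!
The second moment of a bounded function with small exponential sums at polynomial values.
-/

set_option autoImplicit false

namespace Pool.Agent.TH892.LW

open Finset Filter
open Pool.Agent.TH204.WR (TT rt rt_pow rt_nonneg second_weyl growth gap Ph_diff EE evt_log_pow evt_log_ge)

/-- the exponential sums save every power of the logarithm -/
def Dav (f : ℤ → ℝ) : Prop := (∀ v, |f v| ≤ 1) ∧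
  ∀ A : ℕ, ∃ N1 : ℕ, ∀ Y : ℕ, N1 ≤ Y → ∀ α : ℝ, ‖EE Y f α‖ ≤ Y / Real.log Y ^ A

lemma sq_dav (f : ℤ → ℝ) (hf : ∀ v, |f v| ≤ 1) (Y : ℕ) : ∑ v ∈ Icc (1 : ℤ) Y, f v ^ 2 ≤ Y := by
  calc ∑ v ∈ Icc (1 : ℤ) Y, f v ^ 2 ≤ ∑ v ∈ Icc (1 : ℤ) Y, (1 : ℝ) := by
        apply sum_le_sum
        intro v _
        rw [← sq_abs]
        exact pow_le_one₀ (abs_nonneg _) (hf v)
    _ = Y := by simp

lemma arith_f (k c m a A W : ℕ) (S L Y M D J Sg e M2 : ℝ) (hk : 1 ≤ k) (hc : 1 ≤ c) (ha : W + 1 ≤ a)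
    (hA : 2 * (m * a) + W + 5 ≤ A) (he : 1 ≤ e) (hM20 : 1 ≤ M2) (hL : 1000 * M2 * e * c ^ 2 ≤ L) (hLS : L ^ (2 * (m * a) + W + 1) ≤ S)
    (hM1 : S ≤ M) (hM2 : M + 1 ≤ M2 * S) (hD0 : 0 ≤ D) (hD : D ≤ e * (Y / S ^ k)) (hY1 : S ^ k ≤ Y)
    (hJ : M ^ k ≤ 16 * (c * (L ^ a) ^ m) * J) (hJ1 : 1 ≤ J) (hSg0 : 0 ≤ Sg)
    (hSg : Sg ≤ Y ^ 2 * (L ^ 4 / L ^ A)) :
    (M + 1) * Y + 2 * (D * (M / L ^ a * Y) + M * ((c * (L ^ a) ^ m) * (4 / J ^ 2 * (D * (J * Y) + J * Sg)))) ≤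
      M2 * (S * Y) + Y ^ 2 * (S / S ^ k) / L ^ W := by
  have hc1 : (1 : ℝ) ≤ c := by exact_mod_cast hc
  have hc2 : (1 : ℝ) ≤ (c : ℝ) ^ 2 := one_le_pow₀ hc1
  have hMe : 1 ≤ M2 * e := one_le_mul_of_one_le_of_one_le hM20 he
  have hec : 1 ≤ M2 * e * (c : ℝ) ^ 2 := one_le_mul_of_one_le_of_one_le hMe hc2
  have hL3072 : 1000 ≤ L := by linarith
  have hL0 : 0 < L := by linarith
  have hL1 : 1 ≤ L := by linarith
  have hLp0 : ∀ n : ℕ, 0 < L ^ n := fun n => by positivity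
  have hLp : ∀ n : ℕ, 1 ≤ L ^ n := fun n => one_le_pow₀ hL1
  have hS1 : 1 ≤ S := (hLp _).trans hLS
  have hS0 : 0 < S := by linarith
  have hSk0 : 0 < S ^ k := by positivity
  have hSk1 : S ≤ S ^ k := le_self_pow₀ hS1 (by omega)
  have hY0 : 0 < Y := by linarith
  have hM0 : 0 < M := by linarith
  have hM6 : M ≤ M2 * S := by linarith
  have hJ0 : 0 < J := by linarith
  obtain ⟨w, hw⟩ : ∃ w, w = (c : ℝ) * (L ^ a) ^ m := ⟨_, rfl⟩
  rw [← hw] at hJ ⊢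
  have hw0 : 0 < w := by rw [hw]; positivity
  have hw2 : w ^ 2 = c ^ 2 * L ^ (2 * (m * a)) := by
    rw [hw, mul_pow, ← pow_mul, ← pow_mul]; congr 2; ring
  have hiJ : 1 / J ≤ 16 * w / S ^ k := by
    rw [div_le_div_iff₀ hJ0 hSk0, one_mul]
    exact (pow_le_pow_left₀ hS0.le hM1 k).trans hJ
  obtain ⟨T, hT⟩ : ∃ T, T = Y ^ 2 * (S / S ^ k) := ⟨_, rfl⟩
  have hT0 : 0 < T := by rw [hT]; positivity
  rw [← hT]
  have hTW0 : 0 < T / L ^ W := by positivity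
  have t1 : (M + 1) * Y ≤ M2 * (S * Y) := by
    calc (M + 1) * Y ≤ (M2 * S) * Y := mul_le_mul_of_nonneg_right hM2 hY0.le
      _ = M2 * (S * Y) := by ring
  have key : ∀ (G : ℝ) (i j : ℕ), 0 ≤ G → G * 6 ≤ L → i + W + 1 ≤ j → T * (G * (L ^ i / L ^ j)) ≤ T / L ^ W / 6 := by
    intro G i j hG hG6 hij
    have h1 : G * (L ^ i / L ^ j) ≤ 1 / L ^ W / 6 := by
      rw [mul_div_assoc', div_div, div_le_div_iff₀ (hLp0 j) (by positivity), one_mul]
      calc G * L ^ i * (L ^ W * 6) = (G * 6) * (L ^ i * L ^ W) := by ring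
        _ ≤ L * (L ^ i * L ^ W) := mul_le_mul_of_nonneg_right hG6 (by positivity)
        _ = L ^ (i + W + 1) := by ring
        _ ≤ L ^ j := pow_le_pow_right₀ hL1 hij
    calc T * (G * (L ^ i / L ^ j)) ≤ T * (1 / L ^ W / 6) := mul_le_mul_of_nonneg_left h1 hT0.le
      _ = _ := by ring
  have hGb : ∀ G : ℝ, G ≤ 128 * M2 * e * c ^ 2 → G * 6 ≤ L := by
    intro G hG
    have h1 : 0 ≤ M2 * e * (c : ℝ) ^ 2 := by positivity
    linarith only [hG, hL, h1]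
  have hMc : M2 * e ≤ M2 * e * (c : ℝ) ^ 2 := le_mul_of_one_le_right (by positivity) hc2
  have t2 : D * (M / L ^ a * Y) ≤ T / L ^ W / 6 := by
    calc D * (M / L ^ a * Y) ≤ (e * (Y / S ^ k)) * ((M2 * S) / L ^ a * Y) := by
          apply mul_le_mul hD _ (by positivity) (by positivity)
          exact mul_le_mul_of_nonneg_right (div_le_div_of_nonneg_right hM6 (hLp0 a).le) hY0.le
      _ = T * ((e * M2) * (L ^ 0 / L ^ a)) := by rw [hT, pow_zero]; field_simp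
      _ ≤ _ := key _ 0 a (by positivity) (hGb _ (by linarith)) (by omega)
  have e34 : M * (w * (4 / J ^ 2 * (D * (J * Y) + J * Sg))) = 4 * M * w * D * Y * (1 / J) + 4 * M * w * Sg * (1 / J) := by
    field_simp
  have t3 : 4 * M * w * D * Y * (1 / J) ≤ T / L ^ W / 6 := by
    calc 4 * M * w * D * Y * (1 / J) ≤ 4 * (M2 * S) * w * (e * (Y / S ^ k)) * Y * (16 * w / S ^ k) := by
          gcongr
      _ = T * (64 * M2 * e * w ^ 2 / S ^ k) := by rw [hT]; field_simp; ring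
      _ ≤ T * (64 * M2 * e * c ^ 2 * (L ^ (2 * (m * a)) / L ^ (2 * (m * a) + W + 1))) := by
          apply mul_le_mul_of_nonneg_left _ hT0.le
          rw [hw2]
          calc 64 * M2 * e * (c ^ 2 * L ^ (2 * (m * a))) / S ^ k
              ≤ 64 * M2 * e * (c ^ 2 * L ^ (2 * (m * a))) / L ^ (2 * (m * a) + W + 1) := by
                apply div_le_div_of_nonneg_left (by positivity) (hLp0 _)
                exact hLS.trans hSk1
            _ = _ := by ring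
      _ ≤ _ := key _ _ _ (by positivity) (hGb _ (by linarith)) (by omega)
  have t4 : 4 * M * w * Sg * (1 / J) ≤ T / L ^ W / 6 := by
    calc 4 * M * w * Sg * (1 / J) ≤ 4 * (M2 * S) * w * (Y ^ 2 * (L ^ 4 / L ^ A)) * (16 * w / S ^ k) := by gcongr
      _ = T * (64 * M2 * c ^ 2 * (L ^ (2 * (m * a) + 4) / L ^ A)) := by
          have h1 : 4 * (M2 * S) * w * (Y ^ 2 * (L ^ 4 / L ^ A)) * (16 * w / S ^ k) =
            T * (64 * M2 * w ^ 2 * (L ^ 4 / L ^ A)) := by rw [hT]; ring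
          rw [h1, hw2, pow_add]; ring
      _ ≤ _ := key _ _ _ (by positivity) (hGb _ (by
            have : M2 * (c : ℝ) ^ 2 ≤ M2 * e * c ^ 2 := mul_le_mul_of_nonneg_right (le_mul_of_one_le_right (by linarith) he) (by positivity)
            linarith only [this, hM20, hc2, hec])) (by omega)
  rw [e34]
  linarith only [t1, t2, t3, t4]

end Pool.Agent.TH892.LW
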