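import Pool.Agent.TH892.LW.N6

/-!
Windows and arithmetic progressions.
-/

set_option autoImplicit false

namespace Pool.Agent.TH892.LW

open Finset Polynomial Filter
open Pool.Agent.TH204.WR (TT Gap growthZ rt rt_pow evt_log_ge)

lemma prog_sum (F : ℤ[X]) (φ : ℤ → ℝ) (a b : ℤ) (q : ℕ) (hq : 1 ≤ q) (r : ℤ) :
    ∑ m ∈ (Ioc a b).filter (fun m => (q : ℤ) ∣ m - r), φ (F.eval m) =
      ∑ m ∈ Ioc ((a - r) / q) ((b - r) / q), φ ((F.comp (C (q : ℤ) * X + C r)).eval m) := by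
  have hq0 : (0 : ℤ) < q := by exact_mod_cast hq
  have hev : ∀ m : ℤ, (F.comp (C (q : ℤ) * X + C r)).eval m = F.eval (q * m + r) := by
    intro m
    rw [eval_comp, eval_add, eval_mul, eval_C, eval_X, eval_C]
  simp only [hev]
  refine sum_nbij' (fun m => (m - r) / q) (fun m => q * m + r) ?_ ?_ ?_ ?_ ?_
  · intro m hm
    rw [mem_filter, mem_Ioc] at hm
    obtain ⟨⟨h1, h2⟩, s, hs⟩ := hm
    rw [mem_Ioc]
    have e : (m - r) / q = s := by rw [hs]; exact Int.mul_ediv_cancel_left s hq0.ne'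
    rw [e]
    constructor
    · rw [Int.ediv_lt_iff_lt_mul hq0]
      linarith [mul_comm (q : ℤ) s]
    · rw [Int.le_ediv_iff_mul_le hq0]
      linarith [mul_comm (q : ℤ) s]
  · intro m hm
    rw [mem_Ioc, Int.ediv_lt_iff_lt_mul hq0, Int.le_ediv_iff_mul_le hq0] at hm
    rw [mem_filter, mem_Ioc]
    refine ⟨⟨by linarith [mul_comm (q : ℤ) m, hm.1], by linarith [mul_comm (q : ℤ) m, hm.2]⟩, ⟨m, by ring⟩⟩
  · intro m hm
    rw [mem_filter] at hm
    obtain ⟨-, s, hs⟩ := hm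
    have e : (m - r) / q = s := by rw [hs]; exact Int.mul_ediv_cancel_left s hq0.ne'
    show (q : ℤ) * ((m - r) / q) + r = m
    rw [e]
    linarith
  · intro m _
    show ((q : ℤ) * m + r - r) / q = m
    rw [add_sub_cancel_right]
    exact Int.mul_ediv_cancel_left m hq0.ne'
  · intro m hm
    rw [mem_filter] at hm
    obtain ⟨-, s, hs⟩ := hm
    have e : (m - r) / q = s := by rw [hs]; exact Int.mul_ediv_cancel_left s hq0.ne'
    show φ (F.eval m) = φ (F.eval ((q : ℤ) * ((m - r) / q) + r))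
    rw [e]
    congr 2
    linarith

theorem core_prog (k : ℕ) (hk : 1 ≤ k) (F : ℤ[X]) (hF : F.natDegree = k + 1) (κ ε η1 : ℝ) (hκ : 0 < κ) (hε : 0 < ε)
    (hη1 : 0 < η1) (hη11 : η1 ≤ 1) (W Q : ℕ) (hQ : 1 ≤ Q) (f : ℤ → ℝ) (hf : Dav f) (hfe : ∀ v, f (-v) = f v) (hf0 : f 0 = 0) :
    ∃ K : ℝ, 0 < K ∧ ∃ X0 : ℕ, ∀ x : ℕ, X0 ≤ x → ∀ H : ℝ, 1 ≤ H → H ≤ Real.log x ^ W →
    ∃ Bad : Finset ℤ, Bad ⊆ Icc (-(x : ℤ)) x ∧ (#Bad : ℝ) ≤ K * (x / H) ∧
    ∀ t ∈ Icc (-(x : ℤ)) x, η1 * x ≤ |(t : ℝ)| → t ∉ Bad → ∀ a b : ℤ, H ≤ (b : ℝ) - a →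
      (∀ m ∈ Ioc a b, |((F.eval m + t : ℤ) : ℝ)| ≤ κ * (((b : ℝ) - a) * rt k x ^ k)) →
      ∀ (q : ℕ) (r : ℤ), 1 ≤ q → q ≤ Q →
      |∑ m ∈ (Ioc a b).filter (fun m => (q : ℤ) ∣ m - r), f (F.eval m + t)| ≤ ε * ((b : ℝ) - a) := by
  classical
  have hQr : (1 : ℝ) ≤ Q := by exact_mod_cast hQ
  have hQ0 : (0 : ℝ) < Q := by linarith
  have hcore : ∀ q r : ℕ, ∃ K : ℝ, 0 < K ∧ ∃ X0 : ℕ, 1 ≤ q → ∀ x : ℕ, X0 ≤ x → ∀ H : ℝ, 1 ≤ H → H ≤ Real.log x ^ W →
    ∃ Bad : Finset ℤ, Bad ⊆ Icc (-(x : ℤ)) x ∧ (#Bad : ℝ) ≤ K * (x / H) ∧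
    ∀ t ∈ Icc (-(x : ℤ)) x, η1 * x ≤ |(t : ℝ)| → t ∉ Bad → ∀ a b : ℤ, H ≤ (b : ℝ) - a →
      (∀ m ∈ Ioc a b, |(((F.comp (C (q : ℤ) * X + C (r : ℤ))).eval m + t : ℤ) : ℝ)| ≤ (2 * Q * κ) * (((b : ℝ) - a) * rt k x ^ k)) →
      |∑ m ∈ Ioc a b, f ((F.comp (C (q : ℤ) * X + C (r : ℤ))).eval m + t)| ≤ (ε / 2) * ((b : ℝ) - a) := by
    intro q r
    by_cases hq : 1 ≤ q
    · have hdeg : (F.comp (C (q : ℤ) * X + C (r : ℤ))).natDegree = k + 1 := by
        rw [natDegree_comp, natDegree_linear (by exact_mod_cast (by omega : q ≠ 0)), mul_one, hF]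
      obtain ⟨K, hK, X0, h⟩ := core_bd k hk _ hdeg (2 * Q * κ) (ε / 2) η1 (by positivity) (by positivity) hη1 hη11 W f hf hfe hf0
      exact ⟨K, hK, X0, fun _ => h⟩
    · exact ⟨1, one_pos, 0, fun h => absurd h hq⟩
  choose K hK X0 hX0 using hcore
  refine ⟨6 * Q + 2 * Q * ∑ q ∈ Icc 1 Q, ∑ r ∈ range Q, K q r, ?_,
    max (∑ q ∈ Icc 1 Q, ∑ r ∈ range Q, X0 q r) 1, fun x hx H hH1 hHW => ?_⟩
  · have : 0 ≤ ∑ q ∈ Icc 1 Q, ∑ r ∈ range Q, K q r := sum_nonneg fun q _ => sum_nonneg fun r _ => (hK q r).le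
    positivity
  have hx1 : 1 ≤ x := (le_max_right _ _).trans hx
  have hxr : (1 : ℝ) ≤ x := by exact_mod_cast hx1
  have hx0 : (0 : ℝ) < x := by linarith
  have hH0 : 0 < H := by linarith
  have hKs : 0 ≤ ∑ q ∈ Icc 1 Q, ∑ r ∈ range Q, K q r := sum_nonneg fun q _ => sum_nonneg fun r _ => (hK q r).le
  rcases lt_or_ge H (2 * Q) with hHT | hHT
  · refine ⟨Icc (-(x : ℤ)) x, subset_rfl, ?_, fun t ht _ hb => absurd ht hb⟩
    rw [Int.card_Icc]
    have e1 : ((x : ℤ) + 1 - -(x : ℤ)).toNat = 2 * x + 1 := by omega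
    rw [e1]
    push_cast
    calc 2 * (x : ℝ) + 1 ≤ 3 * x := by linarith
      _ = (3 * H) * (x / H) := by field_simp
      _ ≤ (6 * Q + 2 * Q * ∑ q ∈ Icc 1 Q, ∑ r ∈ range Q, K q r) * (x / H) := by
          apply mul_le_mul_of_nonneg_right _ (by positivity)
          have : 0 ≤ 2 * Q * ∑ q ∈ Icc 1 Q, ∑ r ∈ range Q, K q r := by positivity
          linarith
  obtain ⟨H', hH'⟩ : ∃ H', H' = H / (2 * Q) := ⟨_, rfl⟩
  have hH'1 : 1 ≤ H' := by rw [hH', le_div_iff₀ (by positivity)]; linarith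
  have hH'W : H' ≤ Real.log x ^ W := by
    refine le_trans ?_ hHW
    rw [hH', div_le_iff₀ (by positivity)]
    exact le_mul_of_one_le_right hH0.le (by linarith)
  have hHH : H = 2 * Q * H' := by rw [hH']; field_simp
  have hX : ∀ q r : ℕ, 1 ≤ q → q ≤ Q → r < Q → X0 q r ≤ x := by
    intro q r hq hqQ hr
    refine le_trans ?_ ((le_max_left _ _).trans hx)
    refine le_trans ?_ (single_le_sum (f := fun q => ∑ r ∈ range Q, X0 q r) (fun _ _ => Nat.zero_le _) (mem_Icc.2 ⟨hq, hqQ⟩))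
    exact single_le_sum (f := fun r => X0 q r) (fun _ _ => Nat.zero_le _) (mem_range.2 hr)
  have hbad : ∀ q r : ℕ, ∃ Bad : Finset ℤ, 1 ≤ q → q ≤ Q → r < Q → Bad ⊆ Icc (-(x : ℤ)) x ∧ (#Bad : ℝ) ≤ K q r * (x / H') ∧
    ∀ t ∈ Icc (-(x : ℤ)) x, η1 * x ≤ |(t : ℝ)| → t ∉ Bad → ∀ a b : ℤ, H' ≤ (b : ℝ) - a →
      (∀ m ∈ Ioc a b, |(((F.comp (C (q : ℤ) * X + C (r : ℤ))).eval m + t : ℤ) : ℝ)| ≤ (2 * Q * κ) * (((b : ℝ) - a) * rt k x ^ k)) →
      |∑ m ∈ Ioc a b, f ((F.comp (C (q : ℤ) * X + C (r : ℤ))).eval m + t)| ≤ (ε / 2) * ((b : ℝ) - a) := by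
    intro q r
    by_cases h : 1 ≤ q ∧ q ≤ Q ∧ r < Q
    · obtain ⟨Bad, hB⟩ := hX0 q r h.1 x (hX q r h.1 h.2.1 h.2.2) H' hH'1 hH'W
      exact ⟨Bad, fun _ _ _ => hB⟩
    · exact ⟨∅, fun h1 h2 h3 => absurd ⟨h1, h2, h3⟩ h⟩
  choose Bad hBad using hbad
  refine ⟨(Icc 1 Q).biUnion (fun q => (range Q).biUnion (fun r => Bad q r)), ?_, ?_, ?_⟩
  · rw [biUnion_subset]
    intro q hq
    rw [mem_Icc] at hq
    rw [biUnion_subset]
    intro r hr
    rw [mem_range] at hr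
    exact (hBad q r hq.1 hq.2 hr).1
  · have h1 : (#((Icc 1 Q).biUnion (fun q => (range Q).biUnion (fun r => Bad q r))) : ℝ) ≤
        ∑ q ∈ Icc 1 Q, ∑ r ∈ range Q, (#(Bad q r) : ℝ) := by
      refine le_trans (Nat.cast_le.2 (card_biUnion_le.trans (sum_le_sum fun q _ => card_biUnion_le))) ?_
      push_cast
      exact le_rfl
    refine h1.trans ?_
    have h2 : ∑ q ∈ Icc 1 Q, ∑ r ∈ range Q, (#(Bad q r) : ℝ) ≤ ∑ q ∈ Icc 1 Q, ∑ r ∈ range Q, K q r * (x / H') := by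
      refine sum_le_sum fun q hq => sum_le_sum fun r hr => ?_
      rw [mem_Icc] at hq
      rw [mem_range] at hr
      exact (hBad q r hq.1 hq.2 hr).2.1
    refine h2.trans ?_
    simp only [← sum_mul]
    have e1 : (x : ℝ) / H' = 2 * Q * (x / H) := by rw [hHH]; field_simp
    rw [e1]
    have e2 : (6 * Q + 2 * Q * ∑ q ∈ Icc 1 Q, ∑ r ∈ range Q, K q r) * ((x : ℝ) / H) =
      6 * Q * (x / H) + (∑ q ∈ Icc 1 Q, ∑ r ∈ range Q, K q r) * (2 * Q * (x / H)) := by ring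
    rw [e2]
    have : 0 ≤ 6 * (Q : ℝ) * (x / H) := by positivity
    linarith
  · intro t ht ht1 htB a b hab hv q r hq hqQ
    have hq0 : (0 : ℤ) < q := by exact_mod_cast hq
    have hqr : (1 : ℝ) ≤ q := by exact_mod_cast hq
    have hqQr : (q : ℝ) ≤ Q := by exact_mod_cast hqQ
    obtain ⟨s, hs⟩ : ∃ s : ℕ, s = (r % q).toNat := ⟨_, rfl⟩
    have hsr : (s : ℤ) = r % q := by rw [hs]; exact Int.toNat_of_nonneg (Int.emod_nonneg r hq0.ne')
    have hsq : s < q := by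
      have := Int.emod_lt_of_pos r hq0
      omega
    have htB' : t ∉ Bad q s := by
      intro h
      apply htB
      rw [mem_biUnion]
      refine ⟨q, mem_Icc.2 ⟨hq, hqQ⟩, ?_⟩
      rw [mem_biUnion]
      exact ⟨s, mem_range.2 (by omega), h⟩
    have hfil : (Ioc a b).filter (fun m => (q : ℤ) ∣ m - r) = (Ioc a b).filter (fun m => (q : ℤ) ∣ m - (s : ℤ)) := by
      apply filter_congr
      intro m _
      have h1 : (q : ℤ) ∣ r - s := by rw [hsr]; exact Int.dvd_self_sub_emod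
      constructor
      · intro h2
        have := dvd_add h2 h1
        rwa [sub_add_sub_cancel] at this
      · intro h2
        have := dvd_sub h2 h1
        have e : m - (s : ℤ) - (r - s) = m - r := by ring
        rwa [e] at this
    rw [hfil, prog_sum F (fun v => f (v + t)) a b q hq s]
    obtain ⟨a', ha'⟩ : ∃ a', a' = (a - (s : ℤ)) / q := ⟨_, rfl⟩
    obtain ⟨b', hb'⟩ : ∃ b', b' = (b - (s : ℤ)) / q := ⟨_, rfl⟩
    rw [← ha', ← hb']
    have a1 : a' * q ≤ a - s := by rw [ha']; exact Int.ediv_mul_le _ hq0.ne'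
    have a2 : a - s < (a' + 1) * q := by rw [ha']; exact Int.lt_ediv_add_one_mul_self _ hq0
    have b1 : b' * q ≤ b - s := by rw [hb']; exact Int.ediv_mul_le _ hq0.ne'
    have b2 : b - s < (b' + 1) * q := by rw [hb']; exact Int.lt_ediv_add_one_mul_self _ hq0
    have a1r : (a' : ℝ) * q ≤ a - s := by exact_mod_cast a1
    have a2r : (a : ℝ) - s ≤ (a' + 1) * q := by exact_mod_cast a2.le
    have b1r : (b' : ℝ) * q ≤ b - s := by exact_mod_cast b1
    have b2r : (b : ℝ) - s ≤ (b' + 1) * q := by exact_mod_cast b2.le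
    obtain ⟨h, hh⟩ : ∃ h, h = (b : ℝ) - a := ⟨_, rfl⟩
    obtain ⟨h', hh'⟩ : ∃ h', h' = (b' : ℝ) - a' := ⟨_, rfl⟩
    have hup : h' * q ≤ h + q := by
      rw [hh, hh']
      have e : ((b' : ℝ) - a') * q = b' * q - (a' + 1) * q + q := by ring
      rw [e]
      linarith
    have hlo : h ≤ h' * q + q := by
      rw [hh, hh']
      have e : ((b' : ℝ) - a') * q + q = (b' + 1) * q - a' * q := by ring
      rw [e]
      linarith
    rw [← hh] at hab hv ⊢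
    have hh0 : 0 < h := by linarith
    have hh2q : 2 * q ≤ h := by linarith
    have hlo2 : h ≤ 2 * (h' * q) := by linarith
    have hh'0 : 0 < h' := by
      by_contra hcon
      push Not at hcon
      have : h' * q ≤ 0 := mul_nonpos_of_nonpos_of_nonneg hcon (by linarith)
      linarith
    have hlo3 : h ≤ 2 * Q * h' := by
      calc h ≤ 2 * (h' * q) := hlo2
        _ ≤ 2 * (h' * Q) := by
            apply mul_le_mul_of_nonneg_left _ (by norm_num)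
            exact mul_le_mul_of_nonneg_left hqQr hh'0.le
        _ = _ := by ring
    have hup2 : h' ≤ 2 * h := by
      have h1 : h' * 1 ≤ h' * q := mul_le_mul_of_nonneg_left hqr hh'0.le
      linarith
    have hH'h : H' ≤ h' := by
      have h1 : 2 * Q * H' ≤ 2 * Q * h' := by
        rw [← hHH]
        exact hab.trans hlo3
      exact le_of_mul_le_mul_left h1 (by positivity)
    have hmain := (hBad q s hq hqQ (by omega)).2.2 t ht ht1 htB' a' b' (by rw [← hh']; exact hH'h) (by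
      intro m hm
      have hev : (F.comp (C (q : ℤ) * X + C (s : ℤ))).eval m = F.eval (q * m + s) := by
        rw [eval_comp, eval_add, eval_mul, eval_C, eval_X, eval_C]
      rw [hev, ← hh']
      rw [mem_Ioc] at hm
      have hm' : (q : ℤ) * m + s ∈ Ioc a b := by
        rw [mem_Ioc]
        have h1 : (a' + 1) * (q : ℤ) ≤ m * q := mul_le_mul_of_nonneg_right (by omega) hq0.le
        have h2 : m * (q : ℤ) ≤ b' * q := mul_le_mul_of_nonneg_right hm.2 hq0.le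
        have h3 : (q : ℤ) * m = m * q := mul_comm _ _
        constructor <;> omega
      refine (hv _ hm').trans ?_
      have hS : 0 ≤ rt k x ^ k := by
        unfold rt
        positivity
      calc κ * (h * rt k x ^ k) ≤ κ * ((2 * Q * h') * rt k x ^ k) := by
            apply mul_le_mul_of_nonneg_left _ hκ.le
            exact mul_le_mul_of_nonneg_right hlo3 hS
        _ = _ := by ring)
    rw [← hh'] at hmain
    refine hmain.trans ?_
    have : ε / 2 * h' ≤ ε / 2 * (2 * h) := mul_le_mul_of_nonneg_left hup2 (by positivity)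
    linarith

end Pool.Agent.TH892.LW
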