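import Pool.Agent.TH892.LW.N7
import Pool.Agent.TH892.LW.N8
import Pool.Agent.TH892.LW.N9

/-!
The Liouville and the Moebius function in short windows at the real zeros.
-/

set_option autoImplicit false

namespace Pool.Agent.TH892.LW

open Finset Polynomial Filter
open Pool.Agent.TH204.WR (rt)

lemma lam_val {v : ℤ} (hv : v ≠ 0) : lam v = 1 ∨ lam v = -1 := by
  unfold lam
  rw [if_neg hv]
  exact neg_one_pow_eq_or ℝ _

/-- both signs in a window with cancellation -/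
lemma both_signs (v : ℤ → ℤ) (a : ℤ) (H : ℕ) (hH : 1 ≤ H) (hv : ∀ m ∈ Ioc a (a + H), v m ≠ 0)
    (hs : |∑ m ∈ Ioc a (a + H), lam (v m)| ≤ 1 / 2 * H) (s : ℝ) (hs1 : s = 1 ∨ s = -1) :
    ∃ m ∈ Ioc a (a + H), lam (v m) = s := by
  by_contra hcon
  push Not at hcon
  have h1 : ∀ m ∈ Ioc a (a + H), lam (v m) = -s := by
    intro m hm
    have h2 := hcon m hm
    rcases lam_val (hv m hm) with h | h <;> rcases hs1 with h' | h' <;> rw [h, h'] at h2 <;> rw [h, h']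
    · exact absurd rfl h2
    · norm_num
    · exact absurd rfl h2
  rw [sum_congr rfl h1, sum_const, nsmul_eq_mul, Int.card_Ioc, abs_mul, abs_neg] at hs
  have h2 : (a + (H : ℤ) - a).toNat = H := by omega
  rw [h2] at hs
  have h3 : |s| = 1 := by rcases hs1 with h | h <;> rw [h] <;> simp
  rw [h3, mul_one, abs_of_nonneg (Nat.cast_nonneg _)] at hs
  have h4 : (1 : ℝ) ≤ H := by exact_mod_cast hH
  linarith

theorem main_bd (k : ℕ) (hk : 1 ≤ k) (F : ℤ[X]) (hF : F.natDegree = k + 1) (κ ε η : ℝ) (hκ : 0 < κ) (hε : 0 < ε)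
    (hη : 0 < η) (W Q : ℕ) :
    ∃ K : ℝ, 0 < K ∧ ∃ X0 : ℕ, ∀ x : ℕ, X0 ≤ x → ∀ H : ℝ, 1 ≤ H → H ≤ Real.log x ^ W →
    ∃ Bad : Finset ℤ, Bad ⊆ Icc (-(x : ℤ)) x ∧ (#Bad : ℝ) ≤ K * (x / H) ∧
    ∀ t ∈ Icc (-(x : ℤ)) x, η * x ≤ |(t : ℝ)| → t ∉ Bad →
      (∀ a b : ℤ, H ≤ (b : ℝ) - a →
        (∀ m ∈ Ioc a b, |((F.eval m + t : ℤ) : ℝ)| ≤ κ * (((b : ℝ) - a) * rt k x ^ k)) →
        ∀ (q : ℕ) (r : ℤ), 1 ≤ q → q ≤ Q →
        |∑ m ∈ (Ioc a b).filter (fun m => (q : ℤ) ∣ m - r), lam (F.eval m + t)| ≤ ε * ((b : ℝ) - a) ∧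
        |∑ m ∈ (Ioc a b).filter (fun m => (q : ℤ) ∣ m - r), mob (F.eval m + t)| ≤ ε * ((b : ℝ) - a)) ∧
      ((∃ m : ℤ, F.eval m + t < 0) → (∃ m : ℤ, 0 < F.eval m + t) → ∀ s : ℝ, (s = 1 ∨ s = -1) →
        (∃ m : ℤ, 0 < F.eval m + t ∧ ((F.eval m + t : ℤ) : ℝ) ≤ K * (H * rt k x ^ k) ∧ lam (F.eval m + t) = s) ∧
        (∃ m : ℤ, F.eval m + t < 0 ∧ -((F.eval m + t : ℤ) : ℝ) ≤ K * (H * rt k x ^ k) ∧ lam (F.eval m + t) = s)) := by
  classical
  have hFn : (-F).natDegree = k + 1 := by rw [natDegree_neg, hF]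
  obtain ⟨κ1, hκ1, X1, h1⟩ := zero_window k hk F hF η hη W
  obtain ⟨κ2, hκ2, X2, h2⟩ := zero_window k hk (-F) hFn η hη W
  obtain ⟨κ', hκ'⟩ : ∃ κ', κ' = κ + κ1 + κ2 := ⟨_, rfl⟩
  have hκ'0 : 0 < κ' := by linarith
  obtain ⟨ε', hε'⟩ : ∃ ε', ε' = min ε (1 / 2) := ⟨_, rfl⟩
  have hε'0 : 0 < ε' := by rw [hε']; exact lt_min hε (by norm_num)
  have hε'1 : ε' ≤ ε := by rw [hε']; exact min_le_left _ _
  have hε'2 : ε' ≤ 1 / 2 := by rw [hε']; exact min_le_right _ _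
  obtain ⟨η', hη'⟩ : ∃ η', η' = min η 1 := ⟨_, rfl⟩
  have hη'0 : 0 < η' := by rw [hη']; exact lt_min hη one_pos
  have hη'1 : η' ≤ 1 := by rw [hη']; exact min_le_right _ _
  have hη'2 : η' ≤ η := by rw [hη']; exact min_le_left _ _
  obtain ⟨K3, hK3, X3, h3⟩ := core_prog k hk F hF κ' ε' η' hκ'0 hε'0 hη'0 hη'1 W (Q + 1) (by omega) lam dav_lam lam_neg lam_zero
  obtain ⟨K4, hK4, X4, h4⟩ := core_prog k hk F hF κ' ε' η' hκ'0 hε'0 hη'0 hη'1 W (Q + 1) (by omega) mob dav_mob mob_neg mob_zero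
  refine ⟨K3 + K4 + 2 * κ', by positivity, max (max X1 X2) (max X3 X4), fun x hx H hH1 hHW => ?_⟩
  have hx1 := le_trans (le_trans (le_max_left _ _) (le_max_left _ _)) hx
  have hx2 := le_trans (le_trans (le_max_right _ _) (le_max_left _ _)) hx
  have hx3 := le_trans (le_trans (le_max_left _ _) (le_max_right _ _)) hx
  have hx4 := le_trans (le_trans (le_max_right _ _) (le_max_right _ _)) hx
  obtain ⟨B3, hB3, hB3c, g3⟩ := h3 x hx3 H hH1 hHW
  obtain ⟨B4, hB4, hB4c, g4⟩ := h4 x hx4 H hH1 hHW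
  clear h3 h4
  have hH0 : 0 < H := by linarith
  have hxr : (0 : ℝ) ≤ x := Nat.cast_nonneg _
  have hxH : 0 ≤ (x : ℝ) / H := by positivity
  have hS : 0 ≤ rt k x ^ k := by unfold rt; positivity
  refine ⟨B3 ∪ B4, union_subset hB3 hB4, ?_, fun t ht ht1 htB => ?_⟩
  · have c1 : (#(B3 ∪ B4) : ℝ) ≤ #B3 + #B4 := by exact_mod_cast card_union_le _ _
    have e : (K3 + K4 + 2 * κ') * ((x : ℝ) / H) = K3 * (x / H) + K4 * (x / H) + 2 * (κ' * (x / H)) := by ring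
    have : 0 ≤ κ' * ((x : ℝ) / H) := by positivity
    rw [e]
    linarith
  rw [mem_union, not_or] at htB
  have ht1' : η' * x ≤ |(t : ℝ)| := le_trans (mul_le_mul_of_nonneg_right hη'2 hxr) ht1
  replace g3 := g3 t ht ht1' htB.1
  replace g4 := g4 t ht ht1' htB.2
  have htx : |(t : ℝ)| ≤ x := by
    rw [mem_Icc] at ht
    have : |t| ≤ (x : ℤ) := abs_le.2 ht
    have h7 : ((|t| : ℤ) : ℝ) ≤ x := by exact_mod_cast this
    rwa [Int.cast_abs] at h7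
  refine ⟨fun a b hab hv q r hq hqQ => ?_, fun hneg hpos s hs => ?_⟩
  · have hh0 : 0 ≤ (b : ℝ) - a := by linarith
    have hv' : ∀ m ∈ Ioc a b, |((F.eval m + t : ℤ) : ℝ)| ≤ κ' * (((b : ℝ) - a) * rt k x ^ k) := by
      intro m hm
      refine (hv m hm).trans ?_
      apply mul_le_mul_of_nonneg_right _ (by positivity)
      linarith
    have e1 : ε' * ((b : ℝ) - a) ≤ ε * ((b : ℝ) - a) := mul_le_mul_of_nonneg_right hε'1 hh0
    exact ⟨(g3 a b hab hv' q r hq (by omega)).trans e1, (g4 a b hab hv' q r hq (by omega)).trans e1⟩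
  · obtain ⟨Hn, hHn⟩ : ∃ Hn : ℕ, Hn = ⌈H⌉₊ := ⟨_, rfl⟩
    have hHn1 : H ≤ Hn := by rw [hHn]; exact Nat.le_ceil _
    have hHn2 : (Hn : ℝ) ≤ 2 * H := by
      have := Nat.ceil_lt_add_one hH0.le
      rw [← hHn] at this
      linarith
    have hHn3 : 1 ≤ Hn := by
      have : (1 : ℝ) ≤ Hn := by linarith
      exact_mod_cast this
    have hHnW : (Hn : ℝ) ≤ 2 * Real.log x ^ W := by linarith
    have hlen : ∀ a : ℤ, ((a + (Hn : ℤ) : ℤ) : ℝ) - a = Hn := by intro a; push_cast; ring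
    have hsize : ∀ κ₀ : ℝ, κ₀ ≤ κ' → κ₀ * (Hn * rt k x ^ k) ≤ (K3 + K4 + 2 * κ') * (H * rt k x ^ k) := by
      intro κ₀ hκ₀
      calc κ₀ * (Hn * rt k x ^ k) ≤ κ' * ((2 * H) * rt k x ^ k) := by
            apply mul_le_mul hκ₀ _ (by positivity) hκ'0.le
            exact mul_le_mul_of_nonneg_right hHn2 hS
        _ = (2 * κ') * (H * rt k x ^ k) := by ring
        _ ≤ _ := by
            apply mul_le_mul_of_nonneg_right _ (by positivity)
            linarith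
    have hfin : ∀ a : ℤ, (∀ m ∈ Ioc a (a + (Hn : ℤ)), F.eval m + t ≠ 0) →
        (∀ m ∈ Ioc a (a + (Hn : ℤ)), |((F.eval m + t : ℤ) : ℝ)| ≤ κ' * (Hn * rt k x ^ k)) →
        ∃ m ∈ Ioc a (a + (Hn : ℤ)), lam (F.eval m + t) = s := by
      intro a hne hv
      have h5 := g3 a (a + Hn) (by rw [hlen]; exact hHn1) (by rw [hlen]; exact hv) 1 0 le_rfl (by omega)
      rw [hlen, filter_true_of_mem (by intro m _; simp)] at h5
      refine both_signs (fun m => F.eval m + t) a Hn hHn3 hne (h5.trans ?_) s hs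
      exact mul_le_mul_of_nonneg_right hε'2 (Nat.cast_nonneg _)
    constructor
    · obtain ⟨a, ha⟩ := h1 x hx1 Hn hHn3 hHnW t htx ht1 hneg hpos
      obtain ⟨m, hm, hl⟩ := hfin a (fun m hm => (ha m hm).1.ne') (fun m hm => by
        obtain ⟨h5, h6⟩ := ha m hm
        have h7 : (0 : ℝ) < ((F.eval m + t : ℤ) : ℝ) := by exact_mod_cast h5
        rw [abs_of_pos h7]
        refine h6.trans (mul_le_mul_of_nonneg_right (by linarith) (by positivity)))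
      exact ⟨m, (ha m hm).1, (ha m hm).2.trans (hsize κ1 (by linarith)), hl⟩
    · have htn : |((-t : ℤ) : ℝ)| = |(t : ℝ)| := by push_cast; exact abs_neg _
      obtain ⟨a, ha⟩ := h2 x hx2 Hn hHn3 hHnW (-t) (by rw [htn]; exact htx) (by rw [htn]; exact ht1)
        (by obtain ⟨m, hm⟩ := hpos; exact ⟨m, by rw [eval_neg]; linarith⟩)
        (by obtain ⟨m, hm⟩ := hneg; exact ⟨m, by rw [eval_neg]; linarith⟩)
      have ha' : ∀ m ∈ Ioc a (a + (Hn : ℤ)), F.eval m + t < 0 ∧ -((F.eval m + t : ℤ) : ℝ) ≤ κ2 * (Hn * rt k x ^ k) := by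
        intro m hm
        obtain ⟨h5, h6⟩ := ha m hm
        rw [eval_neg] at h5 h6
        refine ⟨by linarith, ?_⟩
        have e : ((-F.eval m + -t : ℤ) : ℝ) = -((F.eval m + t : ℤ) : ℝ) := by push_cast; ring
        rwa [e] at h6
      obtain ⟨m, hm, hl⟩ := hfin a (fun m hm => (ha' m hm).1.ne) (fun m hm => by
        obtain ⟨h5, h6⟩ := ha' m hm
        have h7 : ((F.eval m + t : ℤ) : ℝ) < 0 := by exact_mod_cast h5
        rw [abs_of_neg h7]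
        refine h6.trans (mul_le_mul_of_nonneg_right (by linarith) (by positivity)))
      exact ⟨m, (ha' m hm).1, (ha' m hm).2.trans (hsize κ2 (by linarith)), hl⟩

end Pool.Agent.TH892.LW
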