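import Pool.Agent.TH892.LW.N1

/-!
The second moment, with all parameters depending on `x`.
-/

set_option autoImplicit false

namespace Pool.Agent.TH892.LW

open Finset Filter
open Pool.Agent.TH204.WR (TT rt rt_pow rt_nonneg second_weyl growth gap Ph_diff EE evt_log_pow evt_log_ge)

open Polynomial in
theorem second_bd (k : ℕ) (hk : 1 ≤ k) (P : ℤ[X]) (hP : P.natDegree = k + 1) (η : ℝ) (hη : 0 < η) (hη1 : η ≤ 1)
    (M1 : ℝ) (hM11 : 1 ≤ M1) (C : ℝ) (hC1 : 1 ≤ C) (W : ℕ) (f : ℤ → ℝ) (hf : Dav f) :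
    ∃ X0 : ℕ, ∀ x : ℕ, X0 ≤ x → ∀ Y : ℕ,
    rt k x ^ k ≤ Y → (Y : ℝ) ≤ C * x →
    ∑ t ∈ Icc (-(x : ℤ)) x, TT (fun n => P.eval (n : ℤ)) ⌈η * rt k x⌉₊ ⌈M1 * rt k x⌉₊ Y f t ^ 2 ≤
      (M1 + 2) * (rt k x * Y) + (Y : ℝ) ^ 2 * (rt k x / rt k x ^ k) / Real.log x ^ W := by
  classical
  obtain ⟨hf1, hf2⟩ := hf
  obtain ⟨c, m, hc, hsec⟩ := second_weyl k hk
  obtain ⟨nP, σ, hσ, hgr⟩ := growth k hk P hP
  obtain ⟨a, ha⟩ : ∃ a, a = W + 1 := ⟨_, rfl⟩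
  obtain ⟨A, hA⟩ : ∃ A, A = 2 * (m * a) + W + 5 := ⟨_, rfl⟩
  obtain ⟨N1, hN1⟩ := hf2 A
  obtain ⟨e, he⟩ : ∃ e : ℝ, e = (1 / η) ^ k := ⟨_, rfl⟩
  have he1 : 1 ≤ e := by
    rw [he]
    apply one_le_pow₀
    rw [one_le_div hη]; exact hη1
  obtain ⟨e1, he1'⟩ : ∃ e1, e1 = 2 * (m * a) + W + 1 := ⟨_, rfl⟩
  have hev : ∀ᶠ x : ℕ in atTop, (1000 * (M1 + 2) * e * (c : ℝ) ^ 2 + 16 * c + 2 ^ (A + 20) + N1 + nP / η + C + 1000000) ≤ Real.log x ∧
      Real.log x ^ e1 ≤ (x : ℝ) ^ ((1 : ℝ) / (k + 1)) := by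
    filter_upwards [evt_log_ge (1000 * (M1 + 2) * e * (c : ℝ) ^ 2 + 16 * c + 2 ^ (A + 20) + N1 + nP / η + C + 1000000),
      evt_log_pow e1 ((1 : ℝ) / (k + 1)) (by positivity)] with x h1 h2
    exact ⟨h1, h2⟩
  obtain ⟨X0, hX0⟩ := eventually_atTop.1 hev
  refine ⟨max X0 1, fun x hx Y hY1 hY2 => ?_⟩
  obtain ⟨hL, hLS⟩ := hX0 x ((le_max_left _ _).trans hx)
  have hx1 : 1 ≤ x := (le_max_right _ _).trans hx
  have hSr : rt k x = (x : ℝ) ^ ((1 : ℝ) / (k + 1)) := rfl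
  rw [← hSr] at hLS
  have hSp := rt_pow k x
  clear hev hX0 hSr
  generalize hSd : rt k x = S at *
  generalize hLd : Real.log x = L at *
  have hc1 : (1 : ℝ) ≤ c := by exact_mod_cast hc
  have hN1r : (0 : ℝ) ≤ N1 := Nat.cast_nonneg _
  have hnPr : (0 : ℝ) ≤ nP / η := by positivity
  have h5000 : (0 : ℝ) ≤ 1000 * (M1 + 2) * e * (c : ℝ) ^ 2 := by positivity
  have h2p : (0 : ℝ) < 2 ^ (A + 20) := by positivity
  have h16 : (0 : ℝ) ≤ 16 * c := by positivity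
  have hp20 : ∀ i : ℕ, i ≤ A + 20 → (2 : ℝ) ^ i ≤ L := by
    intro i hi
    have := pow_le_pow_right₀ (show (1 : ℝ) ≤ 2 by norm_num) hi
    linarith
  have hL1024 : 1000000 ≤ L := by linarith
  have hL0 : 0 < L := by linarith
  have hL1 : 1 ≤ L := by linarith
  have hLp0 : ∀ n : ℕ, 0 < L ^ n := fun n => by positivity
  have hLp : ∀ n : ℕ, 1 ≤ L ^ n := fun n => one_le_pow₀ hL1
  have hLL : ∀ {i j : ℕ}, i ≤ j → L ^ i ≤ L ^ j := fun h => pow_le_pow_right₀ hL1 h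
  have hxr : (1 : ℝ) ≤ x := by exact_mod_cast hx1
  have hx0 : (0 : ℝ) < x := by linarith
  have hLS' : ∀ i : ℕ, i ≤ e1 → L ^ i ≤ S := fun i hi => (hLL hi).trans hLS
  have hLS1 : L ≤ S := by simpa using hLS' 1 (by omega)
  have hS1 : 1 ≤ S := hL1.trans hLS1
  have hS0 : 0 < S := by linarith
  have hSx : S ≤ x := by rw [← hSp]; exact le_self_pow₀ hS1 (by omega)
  have hSk1 : S ≤ S ^ k := le_self_pow₀ hS1 (by omega)
  have hSk0 : 0 < S ^ k := by positivity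
  have hSY : S ^ k ≤ Y := hY1
  have hYS : S ≤ Y := hSk1.trans hSY
  have hY0 : (0 : ℝ) < Y := by linarith
  have hYn : 1 ≤ Y := by exact_mod_cast (hS1.trans hYS)
  -- log Y
  obtain ⟨ℓ, hℓ⟩ : ∃ ℓ, ℓ = Real.log Y := ⟨_, rfl⟩
  have hlogS : L ≤ 2 * (k * Real.log S) := by
    have h1 : L = (k + 1) * Real.log S := by
      rw [← hLd, ← hSp, Real.log_pow]
      push_cast; ring
    have h2 : 0 ≤ Real.log S := Real.log_nonneg hS1
    have h3 : (1 : ℝ) ≤ k := by exact_mod_cast hk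
    rw [h1]
    have h4 := mul_nonneg (sub_nonneg.2 h3) h2
    linarith
  have hℓ1 : L / 2 ≤ ℓ := by
    have h1 := Real.log_le_log hSk0 hSY
    rw [Real.log_pow, ← hℓ] at h1
    linarith
  have hYx : (Y : ℝ) ≤ (x : ℝ) ^ 2 := by
    calc (Y : ℝ) ≤ C * x := hY2
      _ ≤ x * x := mul_le_mul_of_nonneg_right (by linarith) hx0.le
      _ = (x : ℝ) ^ 2 := by ring
  have hℓ2 : ℓ ≤ 2 * L := by
    have h2 := Real.log_le_log hY0 hYx
    rw [Real.log_pow, hLd, ← hℓ] at h2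
    exact_mod_cast h2
  have hℓ0 : 0 < ℓ := by linarith
  have hYN1 : N1 ≤ Y := by
    have : (N1 : ℝ) ≤ Y := by linarith
    exact_mod_cast this
  have hsup := hN1 Y hYN1
  have hsq := sq_dav f hf1 Y
  rw [← hℓ] at hsup
  -- the ranges
  obtain ⟨N0, hN0⟩ : ∃ N0, N0 = ⌈η * S⌉₊ := ⟨_, rfl⟩
  obtain ⟨M, hM⟩ : ∃ M, M = ⌈M1 * S⌉₊ := ⟨_, rfl⟩
  have hN0r : η * S ≤ N0 := by rw [hN0]; exact Nat.le_ceil _
  have hηS : 0 < η * S := by positivity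
  have hN0P : nP ≤ N0 := by
    have h1 : (nP : ℝ) / η ≤ S := by linarith
    rw [div_le_iff₀ hη] at h1
    have : (nP : ℝ) ≤ N0 := by linarith
    exact_mod_cast this
  have hN01 : 1 ≤ N0 := by
    rw [hN0]
    exact Nat.ceil_pos.2 hηS
  have hM3 : M1 * S ≤ M := by rw [hM]; exact Nat.le_ceil _
  have hM1S : S ≤ M1 * S := le_mul_of_one_le_left hS0.le hM11
  have hM1 : S ≤ M := by linarith
  have hM2 : (M : ℝ) + 1 ≤ (M1 + 2) * S := by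
    have := Nat.ceil_lt_add_one (show 0 ≤ M1 * S by positivity)
    rw [← hM] at this
    linarith
  have hMr1 : (1 : ℝ) ≤ M := by linarith
  have hMn : 1 ≤ M := by exact_mod_cast hMr1
  -- D
  obtain ⟨D, hD⟩ : ∃ D, D = Y / N0 ^ k := ⟨_, rfl⟩
  have hN0k : 0 < N0 ^ k := Nat.pow_pos hN01
  have hDS : (D : ℝ) ≤ e * (Y / S ^ k) := by
    have h1 : D * N0 ^ k ≤ Y := by rw [hD]; exact Nat.div_mul_le_self _ _
    have h2 : (D : ℝ) * (N0 : ℝ) ^ k ≤ Y := by exact_mod_cast h1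
    have h3 : (D : ℝ) * (η * S) ^ k ≤ Y := by
      refine le_trans ?_ h2
      gcongr
    rw [← le_div_iff₀ (by positivity)] at h3
    refine h3.trans (le_of_eq ?_)
    rw [he, mul_pow, one_div_pow]
    field_simp
  have hgap : ∀ n δ, N0 ≤ n → n + δ ≤ M → D < δ →
      (Y : ℤ) ≤ |(fun n : ℕ => P.eval (n : ℤ)) (n + δ) - (fun n : ℕ => P.eval (n : ℤ)) n| := by
    intro n δ hn _ hδ
    have h1 := gap k P nP σ (fun n hn => (hgr n hn).1) N0 hN0P n δ hn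
    have h2 : Y < δ * N0 ^ k := by
      rw [hD, Nat.div_lt_iff_lt_mul hN0k] at hδ
      exact hδ
    have h3 : (Y : ℤ) < (δ : ℤ) * (N0 : ℤ) ^ k := by exact_mod_cast h2
    have h4 : σ * (P.eval ((n + δ : ℕ) : ℤ) - P.eval (n : ℤ)) ≤ |P.eval ((n + δ : ℕ) : ℤ) - P.eval (n : ℤ)| := by
      rcases hσ with h | h
      · rw [h, one_mul]; exact le_abs_self _
      · rw [h, neg_one_mul]; exact neg_le_abs _
    show (Y : ℤ) ≤ |P.eval ((n + δ : ℕ) : ℤ) - P.eval (n : ℤ)|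
    linarith
  -- J
  obtain ⟨w, hw⟩ : ∃ w, w = (c : ℝ) * (L ^ a) ^ m := ⟨_, rfl⟩
  have hw1 : 1 ≤ w := by
    rw [hw]
    exact one_le_mul_of_one_le_of_one_le hc1 (one_le_pow₀ (hLp a))
  have hw0 : 0 < w := by linarith
  obtain ⟨J, hJ⟩ : ∃ J, J = ⌊(M : ℝ) ^ k / (8 * w)⌋₊ := ⟨_, rfl⟩
  have hMw : 8 * w ≤ (M : ℝ) ^ k := by
    have h1 : L ^ (m * a + 1) ≤ S := hLS' _ (by
      rw [he1']
      have : m * a ≤ 2 * (m * a) := by omega
      omega)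
    have h2 : w * L ≤ c * S := by
      calc w * L = c * L ^ (m * a + 1) := by rw [hw, ← pow_mul, mul_comm a m, pow_succ]; ring
        _ ≤ c * S := by gcongr
    have h3 : 16 * w * c ≤ w * L := by
      have h5 : 16 * (c : ℝ) ≤ L := by linarith
      calc 16 * w * c = w * (16 * c) := by ring
        _ ≤ w * L := by gcongr
    have h4 : 16 * w ≤ S := by
      have h6 : c * (16 * w) ≤ c * S := by linarith
      exact le_of_mul_le_mul_left h6 (by linarith)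
    have h5 : (M : ℝ) ≤ (M : ℝ) ^ k := le_self_pow₀ hMr1 (by omega)
    linarith
  have hJle : (J : ℝ) ≤ (M : ℝ) ^ k / (8 * w) := by rw [hJ]; exact Nat.floor_le (by positivity)
  have hJge1 : 1 ≤ J := by
    rw [hJ]
    apply Nat.le_floor
    rw [Nat.cast_one, le_div_iff₀ (by positivity), one_mul]
    exact hMw
  have hJr1 : (1 : ℝ) ≤ J := by exact_mod_cast hJge1
  have hJM : 8 * (J : ℝ) * (c * (L ^ a) ^ m) ≤ (M : ℝ) ^ k := by
    rw [← hw]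
    rw [le_div_iff₀ (by positivity)] at hJle
    linarith
  have hJge : (M : ℝ) ^ k ≤ 16 * (c * (L ^ a) ^ m) * J := by
    rw [← hw]
    have h1 : (M : ℝ) ^ k / (8 * w) < J + 1 := by rw [hJ]; exact Nat.lt_floor_add_one _
    rw [div_lt_iff₀ (by positivity)] at h1
    have h2 := mul_le_mul_of_nonneg_left hJr1 hw0.le
    have h3 : ((J : ℝ) + 1) * (8 * w) = 8 * (w * J) + 8 * w := by ring
    have h4 : 16 * w * J = 16 * (w * J) := by ring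
    rw [h3] at h1
    rw [h4]
    linarith
  have hlc : P.leadingCoeff ≠ 0 := by
    apply leadingCoeff_ne_zero.2
    intro h
    rw [h, natDegree_zero] at hP
    omega
  have hsecond := hsec (((k + 1).factorial : ℤ) * P.leadingCoeff) N0 M Y D J (fun n => P.eval (n : ℤ)) f
    (Y / ℓ ^ A) Y (L ^ a) (Icc (-(x : ℤ)) x)
    (mul_ne_zero (by exact_mod_cast (Nat.factorial_ne_zero _)) hlc) hMn hJge1 (hLp a) hJM hgap
    (fun δ γ => Ph_diff k P hP N0 δ γ) hsup hsq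
  rw [← hℓ] at hsecond
  have hSg : √(2 * (Y * (1 + ℓ) ^ 4)) * √((Y / ℓ ^ A) ^ 2 * Y) ≤ Y ^ 2 * (L ^ 4 / L ^ A) := by
    rw [← Real.sqrt_mul (by positivity)]
    rw [show (Y : ℝ) ^ 2 * (L ^ 4 / L ^ A) = √((Y ^ 2 * (L ^ 4 / L ^ A)) ^ 2) by
      rw [Real.sqrt_sq (by positivity)]]
    apply Real.sqrt_le_sqrt
    have h3 : 1 / ℓ ^ A ≤ 2 ^ A / L ^ A := by
      rw [← div_pow, div_eq_mul_inv 2 L, ← one_div_pow]
      apply pow_le_pow_left₀ (by positivity)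
      rw [← div_eq_mul_inv, div_le_div_iff₀ hℓ0 hL0]
      linarith
    have h1ℓ : 1 + ℓ ≤ 4 * L := by linarith
    calc 2 * (Y * (1 + ℓ) ^ 4) * ((Y / ℓ ^ A) ^ 2 * Y)
        = 2 * (Y : ℝ) ^ 4 * (1 + ℓ) ^ 4 * (1 / ℓ ^ A) ^ 2 := by ring
      _ ≤ 2 * (Y : ℝ) ^ 4 * (4 * L) ^ 4 * (2 ^ A / L ^ A) ^ 2 := by gcongr
      _ = (Y ^ 2 * (L ^ 2 / L ^ A)) ^ 2 * (512 * (2 ^ A) ^ 2) := by ring
      _ ≤ (Y ^ 2 * (L ^ 2 / L ^ A)) ^ 2 * (L ^ 2 * L ^ 2) := by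
          apply mul_le_mul_of_nonneg_left _ (by positivity)
          have h4 := hp20 (A + 5) (by omega)
          have h5 : (2 : ℝ) ^ (A + 5) = 32 * 2 ^ A := by rw [pow_add]; ring
          rw [h5] at h4
          calc 512 * ((2 : ℝ) ^ A) ^ 2 ≤ (32 * 2 ^ A) ^ 2 * 1 := by
                have : (0 : ℝ) ≤ (2 ^ A) ^ 2 := by positivity
                linarith only [this]
            _ ≤ L ^ 2 * L ^ 2 := mul_le_mul (pow_le_pow_left₀ (by positivity) h4 2) (hLp 2) (by norm_num) (by positivity)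
      _ = (Y ^ 2 * (L ^ 4 / L ^ A)) ^ 2 := by ring
  have harith := arith_f k c m a A W S L Y M D J
    (√(2 * (Y * (1 + ℓ) ^ 4)) * √((Y / ℓ ^ A) ^ 2 * Y)) e (M1 + 2) hk hc (by omega) (by omega) he1 (by linarith)
    (by linarith) (hLS' _ (by omega)) hM1 hM2 (Nat.cast_nonneg _) hDS hY1 hJge hJr1 (by positivity) hSg
  rw [← hN0, ← hM]
  exact hsecond.trans harith

end Pool.Agent.TH892.LW
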