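import Pool.Agent.TH892.LW.N2

/-!
The exceptional shifts at all heights of a geometric grid, and interpolation.
-/

set_option autoImplicit false

namespace Pool.Agent.TH892.LW

open Finset Filter
open Pool.Agent.TH204.WR (TT TT_diff TT_diff_le TT_zero Gap rt rt_pow rt_nonneg evt_log_pow evt_log_ge EE)

/-- the heights -/
noncomputable def gk (R H δ : ℝ) (j : ℕ) : ℕ := ⌊R * (H * (1 + δ) ^ j)⌋₊

lemma cheb (x : ℕ) (T : ℤ → ℝ) (τ M : ℝ) (hτ : 0 < τ) (hM : ∑ t ∈ Icc (-(x : ℤ)) x, T t ^ 2 ≤ M) :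
    (#((Icc (-(x : ℤ)) x).filter (fun t : ℤ => τ < |T t|)) : ℝ) ≤ M / τ ^ 2 := by
  rw [le_div_iff₀ (by positivity)]
  refine le_trans ?_ hM
  calc (#((Icc (-(x : ℤ)) x).filter (fun t : ℤ => τ < |T t|)) : ℝ) * τ ^ 2 =
        ∑ _t ∈ (Icc (-(x : ℤ)) x).filter (fun t : ℤ => τ < |T t|), τ ^ 2 := by rw [sum_const, nsmul_eq_mul]
    _ ≤ ∑ t ∈ (Icc (-(x : ℤ)) x).filter (fun t : ℤ => τ < |T t|), T t ^ 2 := by
        refine sum_le_sum fun t ht => ?_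
        rw [mem_filter] at ht
        rw [← sq_abs (T t)]
        exact pow_le_pow_left₀ hτ.le ht.2.le 2
    _ ≤ _ := sum_le_sum_of_subset_of_nonneg (filter_subset _ _) (fun _ _ _ => sq_nonneg _)

/-- the bound at one height -/
lemma height_ar (H δ c S R Y m lw : ℝ) (j : ℕ) (hH : 0 < H) (hδ : 0 < δ) (hc : 0 < c) (hS : 0 < S) (hR : 0 < R)
    (hm : 0 ≤ m) (hlw : 0 < lw) (hY : R * (H * (1 + δ) ^ j) ≤ 2 * Y) :
    (m * (S * Y) + Y ^ 2 * (S / R) / lw) / (c * (Y / R)) ^ 2 ≤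
      S * R * (2 * m / (c ^ 2 * H) * (1 / (1 + δ)) ^ j + 1 / (c ^ 2 * lw)) := by
  have hp : 0 < (1 + δ) ^ j := by positivity
  have hY0 : 0 < Y := by
    have : 0 < R * (H * (1 + δ) ^ j) := by positivity
    linarith
  have e1 : (m * (S * Y) + Y ^ 2 * (S / R) / lw) / (c * (Y / R)) ^ 2 =
      S * R * (m / c ^ 2 * (R / Y) + 1 / (c ^ 2 * lw)) := by field_simp
  rw [e1, one_div_pow]
  apply mul_le_mul_of_nonneg_left _ (by positivity)
  apply add_le_add _ le_rfl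
  have f1 : R / Y ≤ 2 / (H * (1 + δ) ^ j) := by
    rw [div_le_div_iff₀ hY0 (by positivity)]
    exact hY
  calc m / c ^ 2 * (R / Y) ≤ m / c ^ 2 * (2 / (H * (1 + δ) ^ j)) := mul_le_mul_of_nonneg_left f1 (by positivity)
    _ = _ := by field_simp

open Polynomial in
theorem grid_bd (k : ℕ) (hk : 1 ≤ k) (P : ℤ[X]) (hP : P.natDegree = k + 1) (η0 : ℝ) (hη0 : 0 < η0) (hη01 : η0 ≤ 1)
    (M1 : ℝ) (hM11 : 1 ≤ M1) (C : ℝ) (hC1 : 1 ≤ C) (W : ℕ) (f : ℤ → ℝ) (hf : Dav f) (c δ : ℝ) (hc : 0 < c) (hδ : 0 < δ) :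
    ∃ K : ℝ, 0 < K ∧ ∃ X0 : ℕ, ∀ x : ℕ, X0 ≤ x → ∀ H : ℝ, 2 ≤ H → H ≤ Real.log x ^ W →
    ∃ Bad : Finset ℤ, Bad ⊆ Icc (-(x : ℤ)) x ∧ (#Bad : ℝ) ≤ K * (x / H) ∧
    ∀ t ∈ Icc (-(x : ℤ)) x, t ∉ Bad → ∀ j : ℕ, (gk (rt k x ^ k) H δ j : ℝ) ≤ C * x →
        |TT (fun n => P.eval (n : ℤ)) ⌈η0 * rt k x⌉₊ ⌈M1 * rt k x⌉₊ (gk (rt k x ^ k) H δ j) f t| ≤
          c * ((gk (rt k x ^ k) H δ j : ℝ) / rt k x ^ k) := by
  classical
  obtain ⟨Xa, hXa⟩ := second_bd k hk P hP η0 hη0 hη01 M1 hM11 C hC1 (W + 2) f hf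
  have hlδ : 0 < Real.log (1 + δ) := Real.log_pos (by linarith)
  refine ⟨2 * (M1 + 2) / c ^ 2 * ((1 + δ) / δ) + 1 / c ^ 2, by positivity, ?_⟩
  obtain ⟨Xc, hXc⟩ := eventually_atTop.1 (evt_log_ge (2 * C + (2 / Real.log (1 + δ) + 1) + 1))
  refine ⟨max Xa (max Xc 1), fun x hx H hH2 hHW => ?_⟩
  have hsec := hXa x ((le_max_left _ _).trans hx)
  have hl := hXc x (le_trans (le_trans (le_max_left _ _) (le_max_right _ _)) hx)
  have hx1 : 1 ≤ x := le_trans (le_trans (le_max_right _ _) (le_max_right _ _)) hx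
  clear hXa hXc hx
  have hSp := rt_pow k x
  have hxr : (1 : ℝ) ≤ x := by exact_mod_cast hx1
  have hx0 : (0 : ℝ) < x := by linarith
  have hSpos : 0 < rt k x := by
    unfold rt
    exact Real.rpow_pos_of_pos hx0 _
  have hS1 : 1 ≤ rt k x := by
    unfold rt
    exact Real.one_le_rpow hxr (by positivity)
  have hlx : Real.log x ≤ x := (Real.log_le_sub_one_of_pos hx0).trans (by linarith)
  obtain ⟨l, hld⟩ : ∃ l, l = Real.log x := ⟨_, rfl⟩
  rw [← hld] at hl hsec hHW hlx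
  generalize ⌈η0 * rt k x⌉₊ = N0 at *
  generalize ⌈M1 * rt k x⌉₊ = M at *
  generalize rt k x = S at *
  obtain ⟨R, hR⟩ : ∃ R, R = S ^ k := ⟨_, rfl⟩
  rw [← hR] at hsec ⊢
  have hR0 : 0 < R := by rw [hR]; positivity
  have hR1 : 1 ≤ R := by rw [hR]; exact one_le_pow₀ hS1
  have hSR : S * R = x := by rw [← hSp, hR]; ring
  have h2l : 0 < 2 / Real.log (1 + δ) + 1 := by positivity
  have hl0 : 0 < l := by linarith
  have hl1 : 1 ≤ l := by linarith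
  have hH0 : 0 < H := by linarith
  obtain ⟨J, hJ⟩ : ∃ J, J = ⌊2 / Real.log (1 + δ) * l⌋₊ := ⟨_, rfl⟩
  -- the heights
  have hscale : ∀ j : ℕ, (gk R H δ j : ℝ) ≤ C * x → 1 ≤ gk R H δ j ∧ R * (H * (1 + δ) ^ j) ≤ 2 * gk R H δ j ∧
      R ≤ gk R H δ j ∧ j ≤ J := by
    intro j hj
    have hp1 : 1 ≤ (1 + δ) ^ j := one_le_pow₀ (by linarith)
    have h3 : R * (H * (1 + δ) ^ j) < gk R H δ j + 1 := Nat.lt_floor_add_one _
    have h5 : 2 * (1 + δ) ^ j ≤ H * (1 + δ) ^ j := mul_le_mul_of_nonneg_right hH2 (by linarith)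
    have h6 : R * (2 * (1 + δ) ^ j) ≤ R * (H * (1 + δ) ^ j) := mul_le_mul_of_nonneg_left h5 hR0.le
    have h6' : R * 1 ≤ R * (1 + δ) ^ j := mul_le_mul_of_nonneg_left hp1 hR0.le
    have h7 : (1 : ℝ) ≤ gk R H δ j := by linarith
    refine ⟨by exact_mod_cast h7, by linarith, by linarith, ?_⟩
    rw [hJ]
    apply Nat.le_floor
    have h8 : (1 + δ) ^ j ≤ (x : ℝ) ^ 2 := by
      have h9 : 1 * (1 + δ) ^ j ≤ R * (1 + δ) ^ j := mul_le_mul_of_nonneg_right hR1 (by linarith)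
      have h10 : C * x ≤ x * x := mul_le_mul_of_nonneg_right (by linarith) hx0.le
      have h11 : 2 * (1 + δ) ^ j ≤ (gk R H δ j : ℝ) + 1 := by linarith
      have h12 : (x : ℝ) ^ 2 = x * x := by ring
      rw [h12]
      linarith
    have h9 := Real.log_le_log (by positivity) h8
    rw [Real.log_pow, Real.log_pow, ← hld] at h9
    rw [div_mul_eq_mul_div, le_div_iff₀ hlδ]
    push_cast at h9
    exact h9
  obtain ⟨Ks, hKs⟩ : ∃ Ks, Ks = (range (J + 1)).filter (fun j => (gk R H δ j : ℝ) ≤ C * x) := ⟨_, rfl⟩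
  refine ⟨Ks.biUnion (fun j => (Icc (-(x : ℤ)) x).filter (fun t : ℤ =>
    c * ((gk R H δ j : ℝ) / R) < |TT (fun n => P.eval (n : ℤ)) N0 M (gk R H δ j) f t|)), ?_, ?_, ?_⟩
  · exact biUnion_subset.2 fun j _ => filter_subset _ _
  · have h3 : (#(Ks.biUnion (fun j => (Icc (-(x : ℤ)) x).filter (fun t : ℤ =>
        c * ((gk R H δ j : ℝ) / R) < |TT (fun n => P.eval (n : ℤ)) N0 M (gk R H δ j) f t|))) : ℝ) ≤
        ∑ j ∈ Ks, x * (2 * (M1 + 2) / (c ^ 2 * H) * (1 / (1 + δ)) ^ j + 1 / (c ^ 2 * l ^ (W + 2))) := by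
      refine le_trans (Nat.cast_le.2 card_biUnion_le) ?_
      push_cast
      refine sum_le_sum fun j hj => ?_
      rw [hKs, mem_filter] at hj
      obtain ⟨g1, g2, g3, g4⟩ := hscale j hj.2
      have hg1 : (0 : ℝ) < gk R H δ j := by exact_mod_cast g1
      refine (cheb x (fun t => TT (fun n => P.eval (n : ℤ)) N0 M (gk R H δ j) f t) (c * ((gk R H δ j : ℝ) / R)) _
        (by positivity) (hsec _ g3 hj.2)).trans ?_
      rw [← hSR]
      exact height_ar H δ c S R _ (M1 + 2) (l ^ (W + 2)) j hH0 hδ hc hSpos hR0 (by linarith) (by positivity) g2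
    refine h3.trans ?_
    rw [← mul_sum, sum_add_distrib, ← mul_sum, sum_const, nsmul_eq_mul]
    have h4 : ∑ j ∈ Ks, (1 / (1 + δ)) ^ j ≤ (1 + δ) / δ := by
      have hx0 : 0 ≤ 1 / (1 + δ) := by positivity
      have hx1 : 1 / (1 + δ) < 1 := by rw [div_lt_one (by linarith)]; linarith
      have h5 := (summable_geometric_of_lt_one hx0 hx1).sum_le_tsum Ks (fun j _ => pow_nonneg hx0 j)
      rw [tsum_geometric_of_lt_one hx0 hx1] at h5
      refine h5.trans (le_of_eq ?_)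
      have h6 : 1 - 1 / (1 + δ) = δ / (1 + δ) := by field_simp; ring
      rw [h6, inv_div]
    have h5 : (#Ks : ℝ) ≤ l * l := by
      have h6 : #Ks ≤ J + 1 := by
        rw [hKs]
        exact (card_filter_le _ _).trans (card_range _).le
      have h7 : (J : ℝ) ≤ 2 / Real.log (1 + δ) * l := by rw [hJ]; exact Nat.floor_le (by positivity)
      have h8 : (#Ks : ℝ) ≤ J + 1 := by exact_mod_cast h6
      have h9 : (2 / Real.log (1 + δ) + 1) * l ≤ l * l := mul_le_mul_of_nonneg_right (by linarith) hl0.le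
      linarith
    have h6 : 2 * (M1 + 2) / (c ^ 2 * H) * ∑ j ∈ Ks, (1 / (1 + δ)) ^ j ≤ 2 * (M1 + 2) / c ^ 2 * ((1 + δ) / δ) / H := by
      calc 2 * (M1 + 2) / (c ^ 2 * H) * ∑ j ∈ Ks, (1 / (1 + δ)) ^ j ≤ 2 * (M1 + 2) / (c ^ 2 * H) * ((1 + δ) / δ) :=
            mul_le_mul_of_nonneg_left h4 (by positivity)
        _ = _ := by field_simp
    have h7 : (#Ks : ℝ) * (1 / (c ^ 2 * l ^ (W + 2))) ≤ 1 / c ^ 2 / H := by
      calc (#Ks : ℝ) * (1 / (c ^ 2 * l ^ (W + 2))) ≤ (l * l) * (1 / (c ^ 2 * l ^ (W + 2))) :=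
            mul_le_mul_of_nonneg_right h5 (by positivity)
        _ = 1 / c ^ 2 / l ^ W := by rw [pow_add]; field_simp
        _ ≤ 1 / c ^ 2 / H := div_le_div_of_nonneg_left (by positivity) hH0 hHW
    calc (x : ℝ) * (2 * (M1 + 2) / (c ^ 2 * H) * ∑ j ∈ Ks, (1 / (1 + δ)) ^ j + #Ks * (1 / (c ^ 2 * l ^ (W + 2))))
        ≤ x * (2 * (M1 + 2) / c ^ 2 * ((1 + δ) / δ) / H + 1 / c ^ 2 / H) := mul_le_mul_of_nonneg_left (add_le_add h6 h7) hx0.le
      _ = _ := by ring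
  · intro t ht htB j hj
    obtain ⟨g1, g2, g3, g4⟩ := hscale j hj
    by_contra h4
    push Not at h4
    apply htB
    rw [mem_biUnion]
    refine ⟨j, ?_, mem_filter.2 ⟨ht, h4⟩⟩
    rw [hKs, mem_filter, mem_range]
    exact ⟨by omega, hj⟩

/-- interpolation -/
lemma interp_bd (G : ℕ → ℤ) (σ : ℤ) (hσ : σ = 1 ∨ σ = -1) (N0 M g : ℕ) (hg : 1 ≤ g) (hG : Gap G σ N0 g) (t : ℤ)
    (f : ℤ → ℝ) (hf : ∀ v, |f v| ≤ 1)
    (R H δ c e V : ℝ) (hR : 1 ≤ R) (hH : 2 ≤ H) (hδ : 0 < δ) (hc : 0 < c) (he : 1 ≤ e) (hgR : R ≤ e * g)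
    (hs : ∀ j : ℕ, (gk R H δ j : ℝ) ≤ V → |TT G N0 M (gk R H δ j) f t| ≤ c * ((gk R H δ j : ℝ) / R))
    (Y : ℕ) (hY : (Y : ℝ) ≤ V) :
    |TT G N0 M Y f t| ≤ (c + e * δ) * (Y / R) + 3 * (e * H) := by
  have hgr : (0 : ℝ) < g := by exact_mod_cast hg
  have hR0 : 0 < R := by linarith
  have hH0 : 0 < H := by linarith
  have he0 : 0 < e := by linarith
  have heH : 2 ≤ e * H := by
    calc (2 : ℝ) = 1 * 2 := by norm_num
      _ ≤ e * H := mul_le_mul he hH (by norm_num) he0.le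
  obtain ⟨ρ, hρ⟩ : ∃ ρ, ρ = (Y : ℝ) / R := ⟨_, rfl⟩
  have hYρ : (Y : ℝ) = R * ρ := by rw [hρ]; field_simp
  rw [← hρ]
  have hρ0 : 0 ≤ ρ := by rw [hρ]; positivity
  have hdiv : ∀ r : ℝ, 0 ≤ r → (R * r) / g ≤ e * r := by
    intro r hr
    rw [div_le_iff₀ hgr]
    calc R * r ≤ (e * g) * r := mul_le_mul_of_nonneg_right hgR hr
      _ = _ := by ring
  rcases lt_or_ge ρ H with h1 | h1
  · have h := TT_diff_le G σ hσ N0 g hg hG M Y 0 (Nat.zero_le _) f t 1 hf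
    rw [TT_zero, sub_zero, Nat.cast_zero, sub_zero, one_mul, hYρ] at h
    have h2 := hdiv ρ hρ0
    have h3 : e * ρ ≤ e * H := mul_le_mul_of_nonneg_left h1.le he0.le
    have h4 : 0 ≤ (c + e * δ) * ρ := by positivity
    linarith
  · obtain ⟨j, hj1, hj2⟩ := exists_nat_pow_near (x := ρ / H) (y := 1 + δ)
      (by rw [one_le_div hH0]; exact h1) (by linarith)
    rw [le_div_iff₀ hH0] at hj1
    rw [div_lt_iff₀ hH0] at hj2
    have a1 : (gk R H δ j : ℝ) ≤ Y := by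
      have := Nat.floor_le (show 0 ≤ R * (H * (1 + δ) ^ j) by positivity)
      have h3 : R * (H * (1 + δ) ^ j) ≤ R * ρ := mul_le_mul_of_nonneg_left (by linarith) hR0.le
      unfold gk
      linarith
    have a6 : gk R H δ j ≤ Y := by exact_mod_cast a1
    have a2 : (Y : ℝ) - gk R H δ j ≤ R * (δ * ρ) + 1 := by
      have h3 := Nat.lt_floor_add_one (R * (H * (1 + δ) ^ j))
      have h4 : ρ - H * (1 + δ) ^ j ≤ δ * ρ := by
        have h5 : ρ ≤ (1 + δ) * (H * (1 + δ) ^ j) := by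
          have : (1 + δ) ^ (j + 1) * H = (1 + δ) * (H * (1 + δ) ^ j) := by ring
          linarith
        have h6 : δ * (H * (1 + δ) ^ j) ≤ δ * ρ := mul_le_mul_of_nonneg_left (by linarith) hδ.le
        linarith
      have h5 := mul_le_mul_of_nonneg_left h4 hR0.le
      have e1 : R * (ρ - H * (1 + δ) ^ j) = R * ρ - R * (H * (1 + δ) ^ j) := by ring
      rw [e1] at h5
      unfold gk
      rw [hYρ]
      linarith
    have h := TT_diff_le G σ hσ N0 g hg hG M Y _ a6 f t 1 hf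
    rw [one_mul] at h
    have b1 := hs j (a1.trans hY)
    have b2 : c * ((gk R H δ j : ℝ) / R) ≤ c * ρ := by
      apply mul_le_mul_of_nonneg_left _ hc.le
      rw [div_le_iff₀ hR0]; linarith
    have b3 : ((Y : ℝ) - gk R H δ j) / g ≤ e * (δ * ρ) + e := by
      calc ((Y : ℝ) - gk R H δ j) / g ≤ (R * (δ * ρ) + 1) / g := div_le_div_of_nonneg_right a2 hgr.le
        _ ≤ (R * (δ * ρ) + R * 1) / g := div_le_div_of_nonneg_right (by linarith) hgr.le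
        _ = (R * (δ * ρ)) / g + (R * 1) / g := add_div _ _ _
        _ ≤ e * (δ * ρ) + e * 1 := add_le_add (hdiv _ (by positivity)) (hdiv 1 zero_le_one)
        _ = _ := by ring
    have b4 : |TT G N0 M Y f t| ≤ |TT G N0 M Y f t - TT G N0 M (gk R H δ j) f t| + |TT G N0 M (gk R H δ j) f t| := by
      have := abs_add_le (TT G N0 M Y f t - TT G N0 M (gk R H δ j) f t) (TT G N0 M (gk R H δ j) f t)
      rwa [sub_add_cancel] at this
    have b5 : (c + e * δ) * ρ = c * ρ + e * (δ * ρ) := by ring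
    have b6 : e * 2 ≤ e * H := mul_le_mul_of_nonneg_left hH he0.le
    linarith

end Pool.Agent.TH892.LW
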