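import Pool.Agent.TH892.LW.N4

/-!
Sizes, and one shift.
-/

set_option autoImplicit false

namespace Pool.Agent.TH892.LW

open Finset Polynomial
open Pool.Agent.TH204.WR (TT Gap)

lemma size_lo (k A : ℕ) (F : ℤ[X]) (hA : 1 ≤ A)
    (hgr2 : ∀ m : ℤ, |F.eval m| ≤ A * (|m| ^ (k + 1) + 1)) (S X η1 : ℝ) (hS : S ^ (k + 1) = X) (hS1 : 1 ≤ S)
    (hη1 : 0 < η1) (hη11 : η1 ≤ 1) (t : ℤ) (ht2 : η1 * X ≤ |(t : ℝ)|)
    (hX : 8 * A / η1 ≤ S) (m : ℤ) (hv : |((F.eval m + t : ℤ) : ℝ)| ≤ η1 / 4 * X) :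
    η1 / (8 * A) * S + 1 ≤ ((|m| : ℤ) : ℝ) := by
  have hAr : (1 : ℝ) ≤ A := by exact_mod_cast hA
  have hA0 : (0 : ℝ) < A := by linarith
  have hX0 : 0 < X := by rw [← hS]; positivity
  have hSX : S ≤ X := by rw [← hS]; exact le_self_pow₀ hS1 (by omega)
  obtain ⟨q, hq⟩ : ∃ q, q = η1 / (4 * A) := ⟨_, rfl⟩
  have hq0 : 0 < q := by rw [hq]; positivity
  have hq1 : q ≤ 1 := by
    rw [hq, div_le_one (by positivity)]
    linarith
  have hqη : η1 = 4 * A * q := by rw [hq]; field_simp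
  have hqS : 2 ≤ q * S := by
    rw [div_le_iff₀ hη1] at hX
    rw [hq, div_mul_eq_mul_div, le_div_iff₀ (by positivity)]
    linarith
  have hFr : ((|F.eval m| : ℤ) : ℝ) = |((F.eval m : ℤ) : ℝ)| := Int.cast_abs
  have hFlo : η1 / 2 * X ≤ ((|F.eval m| : ℤ) : ℝ) := by
    rw [hFr]
    have h3 : |(t : ℝ)| ≤ |((F.eval m : ℤ) : ℝ)| + |((F.eval m + t : ℤ) : ℝ)| := by
      have e : (t : ℝ) = -((F.eval m : ℤ) : ℝ) + ((F.eval m + t : ℤ) : ℝ) := by push_cast; ring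
      calc |(t : ℝ)| = |-((F.eval m : ℤ) : ℝ) + ((F.eval m + t : ℤ) : ℝ)| := by rw [← e]
        _ ≤ |-((F.eval m : ℤ) : ℝ)| + |((F.eval m + t : ℤ) : ℝ)| := abs_add_le _ _
        _ = _ := by rw [abs_neg]
    have h4 : 0 ≤ η1 * X := by positivity
    linarith
  have hm0 : (0 : ℝ) ≤ ((|m| : ℤ) : ℝ) := by exact_mod_cast abs_nonneg m
  have h3 : ((|F.eval m| : ℤ) : ℝ) ≤ A * (((|m| : ℤ) : ℝ) ^ (k + 1) + 1) := by
    have := hgr2 m
    exact_mod_cast this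
  have h4 : q * X ≤ ((|m| : ℤ) : ℝ) ^ (k + 1) := by
    have h5 : η1 / 2 * X ≤ A * (((|m| : ℤ) : ℝ) ^ (k + 1) + 1) := hFlo.trans h3
    have h6 : 2 ≤ q * X := hqS.trans (mul_le_mul_of_nonneg_left hSX hq0.le)
    have h7 : η1 / 2 * X = A * (2 * (q * X)) := by rw [hqη]; ring
    rw [h7] at h5
    have h8 := le_of_mul_le_mul_left h5 hA0
    linarith
  have h5 : (q * S) ^ (k + 1) ≤ ((|m| : ℤ) : ℝ) ^ (k + 1) := by
    refine le_trans ?_ h4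
    rw [mul_pow, hS]
    apply mul_le_mul_of_nonneg_right _ hX0.le
    rw [pow_succ]
    exact mul_le_of_le_one_left hq0.le (pow_le_one₀ hq0.le hq1)
  have h6 := (pow_le_pow_iff_left₀ (by positivity) hm0 (by omega)).1 h5
  have h7 : η1 / (8 * A) * S = q * S / 2 := by rw [hq]; field_simp; norm_num
  rw [h7]
  linarith

lemma size_hi (k nP : ℕ) (hk : 1 ≤ k) (F : ℤ[X])
    (hgr1 : ∀ m : ℤ, (nP : ℤ) ≤ |m| → |m| ^ (k + 1) ≤ 2 * |F.eval m|)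
    (S X κ M1 : ℝ) (hS : S ^ (k + 1) = X) (hS1 : 1 ≤ S) (hκ : 0 < κ) (hM1 : M1 = 2 + 6 * κ) (hnS : (nP : ℝ) ≤ S)
    (t : ℤ) (ht : |(t : ℝ)| ≤ X) (a b : ℤ) (hab : a < b)
    (hv : ∀ m ∈ Ioc a b, |((F.eval m + t : ℤ) : ℝ)| ≤ κ * (((b : ℝ) - a) * S ^ k)) :
    (∀ m ∈ Ioc a b, ((|m| : ℤ) : ℝ) ≤ M1 * S) ∧ (b : ℝ) - a ≤ (2 * M1 + 1) * S := by
  have hS0 : 0 < S := by linarith
  have hSk : 0 < S ^ k := by positivity
  -- the endpoint
  obtain ⟨c, hc, hmax, hlen⟩ : ∃ c ∈ Ioc a b, (∀ m ∈ Ioc a b, |m| ≤ |c|) ∧ b - a ≤ 2 * |c| + 1 := by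
    rcases le_total |a + 1| |b| with h | h
    · refine ⟨b, by rw [mem_Ioc]; omega, ?_, ?_⟩
      · intro m hm
        rw [mem_Ioc] at hm
        rw [abs_le]
        have h1 := neg_abs_le (a + 1)
        have h2 := le_abs_self b
        constructor <;> omega
      · have h1 := neg_abs_le (a + 1)
        have h2 := le_abs_self b
        omega
    · refine ⟨a + 1, by rw [mem_Ioc]; omega, ?_, ?_⟩
      · intro m hm
        rw [mem_Ioc] at hm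
        rw [abs_le]
        have h1 := neg_abs_le (a + 1)
        have h2 := le_abs_self b
        constructor <;> omega
      · have h1 := neg_abs_le (a + 1)
        have h2 := le_abs_self b
        omega
  have hlenr : (b : ℝ) - a ≤ 2 * ((|c| : ℤ) : ℝ) + 1 := by exact_mod_cast hlen
  have hc0 : (0 : ℝ) ≤ ((|c| : ℤ) : ℝ) := by exact_mod_cast abs_nonneg c
  have hM1S : 2 * S ≤ M1 * S := mul_le_mul_of_nonneg_right (by linarith) hS0.le
  have hcM : ((|c| : ℤ) : ℝ) ≤ M1 * S := by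
    by_contra hcon
    push Not at hcon
    obtain ⟨y, hy⟩ : ∃ y : ℝ, y = ((|c| : ℤ) : ℝ) := ⟨_, rfl⟩
    rw [← hy] at hcon hlenr hc0
    have hy2 : 2 ≤ y := by linarith
    have hy0 : 0 < y := by linarith
    have hnc : (nP : ℤ) ≤ |c| := by
      have h1 : (nP : ℝ) ≤ ((|c| : ℤ) : ℝ) := by rw [← hy]; linarith
      exact_mod_cast h1
    have h1 : y ^ (k + 1) ≤ 2 * ((|F.eval c| : ℤ) : ℝ) := by
      rw [hy]
      have := hgr1 c hnc
      exact_mod_cast this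
    have hFr : ((|F.eval c| : ℤ) : ℝ) = |((F.eval c : ℤ) : ℝ)| := Int.cast_abs
    have h2 : ((|F.eval c| : ℤ) : ℝ) ≤ X + κ * (((b : ℝ) - a) * S ^ k) := by
      rw [hFr]
      have e : ((F.eval c : ℤ) : ℝ) = ((F.eval c + t : ℤ) : ℝ) - (t : ℝ) := by push_cast; ring
      rw [e]
      refine (abs_sub _ _).trans ?_
      have := hv c hc
      linarith
    have h3 : κ * (((b : ℝ) - a) * S ^ k) ≤ κ * ((3 * y) * S ^ k) := by
      apply mul_le_mul_of_nonneg_left _ hκ.le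
      exact mul_le_mul_of_nonneg_right (by linarith) hSk.le
    have h4 : X ≤ y / 2 * S ^ k := by
      rw [← hS, pow_succ, mul_comm]
      exact mul_le_mul_of_nonneg_right (by linarith) hSk.le
    have h5 : M1 * S ^ k ≤ y ^ k := by
      calc M1 * S ^ k ≤ M1 ^ k * S ^ k := mul_le_mul_of_nonneg_right (le_self_pow₀ (by linarith) (by omega)) hSk.le
        _ = (M1 * S) ^ k := (mul_pow _ _ _).symm
        _ ≤ y ^ k := pow_le_pow_left₀ (by linarith) hcon.le k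
    have h6 : y * (M1 * S ^ k) ≤ y ^ (k + 1) := by
      rw [pow_succ, mul_comm]
      exact mul_le_mul_of_nonneg_right h5 hy0.le
    have h7 : y * (M1 * S ^ k) = 2 * (y * S ^ k) + 6 * (κ * (y * S ^ k)) := by rw [hM1]; ring
    have h8 : κ * ((3 * y) * S ^ k) = 3 * (κ * (y * S ^ k)) := by ring
    have h9 : y / 2 * S ^ k = (y * S ^ k) / 2 := by ring
    have h10 : 0 < y * S ^ k := by positivity
    linarith
  refine ⟨fun m hm => le_trans (by exact_mod_cast hmax m hm) hcM, ?_⟩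
  have : (2 * M1 + 1) * S = 2 * (M1 * S) + S := by ring
  linarith

/-- the middle part of a window -/
lemma mid_card' (a b : ℤ) (N0 : ℕ) (f : ℤ → ℝ) (hf : ∀ v, |f v| ≤ 1) (F : ℤ[X]) (t : ℤ) :
    |∑ m ∈ (Ioc a b).filter (fun m => ¬ (N0 : ℤ) ≤ m ∧ ¬ m ≤ -(N0 : ℤ)), f (F.eval m + t)| ≤ 2 * N0 := by
  refine (abs_sum_le_sum_abs _ _).trans ((sum_le_sum fun n _ => hf _).trans ?_)
  rw [sum_const, nsmul_eq_mul, mul_one]
  have h1 : (Ioc a b).filter (fun m => ¬ (N0 : ℤ) ≤ m ∧ ¬ m ≤ -(N0 : ℤ)) ⊆ Ioc (-(N0 : ℤ)) N0 := by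
    intro m hm
    rw [mem_filter] at hm
    rw [mem_Ioc]
    omega
  have h2 := card_le_card h1
  rw [Int.card_Ioc] at h2
  have h3 : ((N0 : ℤ) - -(N0 : ℤ)).toNat = 2 * N0 := by omega
  rw [h3] at h2
  exact_mod_cast h2

/-- one shift -/
lemma one_t (k nP A N0 M g : ℕ) (hk : 1 ≤ k) (hA : 1 ≤ A) (F : ℤ[X])
    (hgr1 : ∀ m : ℤ, (nP : ℤ) ≤ |m| → |m| ^ (k + 1) ≤ 2 * |F.eval m|)
    (hgr2 : ∀ m : ℤ, |F.eval m| ≤ A * (|m| ^ (k + 1) + 1))
    (σ₁ σ₂ : ℤ) (hσ₁ : σ₁ = 1 ∨ σ₁ = -1) (hσ₂ : σ₂ = 1 ∨ σ₂ = -1) (hg : 1 ≤ g) (hN0 : 1 ≤ N0)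
    (hG1 : Gap (fun n => F.eval (n : ℤ)) σ₁ N0 g) (hG2 : Gap (fun n => (F.comp (-X)).eval (n : ℤ)) σ₂ N0 g)
    (f : ℤ → ℝ) (hf1 : ∀ v, |f v| ≤ 1) (hfe : ∀ v, f (-v) = f v) (hf0 : f 0 = 0)
    (S x η1 η0 κ ε M1 α β C H : ℝ) (hS : S ^ (k + 1) = x) (hS1 : 1 ≤ S) (hη1 : 0 < η1) (hη11 : η1 ≤ 1) (hκ : 0 < κ)
    (hε : 0 < ε) (hM1 : M1 = 2 + 6 * κ) (hnS : (nP : ℝ) ≤ S) (hX : 8 * A / η1 ≤ S) (hη0 : 0 < η0) (hη0a : η0 ≤ η1 / (8 * A))
    (hη0b : 32 * κ * η0 ≤ ε * η1) (hN0S : (N0 : ℝ) ≤ η0 * S + 1) (hMS : M1 * S ≤ M) (hC : C = κ * (2 * M1 + 1))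
    (hα : 0 ≤ α) (hβ : 0 ≤ β) (hακ : 32 * (α * κ) ≤ ε) (hβH : 64 * β ≤ ε * H) (hH : 16 ≤ ε * H)
    (t : ℤ) (ht : |(t : ℝ)| ≤ x) (ht2 : η1 * x ≤ |(t : ℝ)|)
    (h1 : ∀ Y : ℕ, (Y : ℝ) ≤ C * x → |TT (fun n => F.eval (n : ℤ)) N0 M Y f t| ≤ α * (Y / S ^ k) + β)
    (h2 : ∀ Y : ℕ, (Y : ℝ) ≤ C * x → |TT (fun n => -F.eval (n : ℤ)) N0 M Y f (-t)| ≤ α * (Y / S ^ k) + β)
    (h3 : ∀ Y : ℕ, (Y : ℝ) ≤ C * x → |TT (fun n => (F.comp (-X)).eval (n : ℤ)) N0 M Y f t| ≤ α * (Y / S ^ k) + β)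
    (h4 : ∀ Y : ℕ, (Y : ℝ) ≤ C * x → |TT (fun n => -(F.comp (-X)).eval (n : ℤ)) N0 M Y f (-t)| ≤ α * (Y / S ^ k) + β)
    (a b : ℤ) (hab : a < b) (hHab : H ≤ (b : ℝ) - a)
    (hv : ∀ m ∈ Ioc a b, |((F.eval m + t : ℤ) : ℝ)| ≤ κ * (((b : ℝ) - a) * S ^ k)) :
    |∑ m ∈ Ioc a b, f (F.eval m + t)| ≤ ε * ((b : ℝ) - a) := by
  have hS0 : 0 < S := by linarith
  have hSk : 0 < S ^ k := by positivity
  have hAr : (1 : ℝ) ≤ A := by exact_mod_cast hA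
  obtain ⟨hm, hlen⟩ := size_hi k nP hk F hgr1 S x κ M1 hS hS1 hκ hM1 hnS t ht a b hab hv
  obtain ⟨h, hh⟩ : ∃ h, h = (b : ℝ) - a := ⟨_, rfl⟩
  rw [← hh] at hHab hv hlen ⊢
  have hab' : (1 : ℝ) ≤ h := by
    rw [hh]
    have : (a : ℝ) + 1 ≤ b := by exact_mod_cast hab
    linarith
  have hh0 : 0 < h := by linarith
  obtain ⟨V, hV⟩ : ∃ V : ℤ, V = ⌊κ * (h * S ^ k)⌋ := ⟨_, rfl⟩
  have hVr : (V : ℝ) ≤ κ * (h * S ^ k) := by rw [hV]; exact Int.floor_le _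
  have hvV : ∀ m ∈ Ioc a b, |F.eval m + t| ≤ V := by
    intro m hm'
    rw [hV]
    apply Int.le_floor.2
    have := hv m hm'
    rwa [← Int.cast_abs] at this
  have hVC : κ * (h * S ^ k) ≤ C * x := by
    rw [hC, ← hS, pow_succ]
    calc κ * (h * S ^ k) ≤ κ * ((2 * M1 + 1) * S * S ^ k) := by
          apply mul_le_mul_of_nonneg_left _ hκ.le
          exact mul_le_mul_of_nonneg_right hlen hSk.le
      _ = _ := by ring
  obtain ⟨E, hE⟩ : ∃ E, E = α * (κ * h) + β := ⟨_, rfl⟩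
  have hE0 : 0 ≤ E := by rw [hE]; positivity
  have hconv : ∀ Y : ℕ, (Y : ℤ) ≤ V → (Y : ℝ) ≤ C * x ∧ α * (Y / S ^ k) + β ≤ E := by
    intro Y hY
    have hYr : (Y : ℝ) ≤ V := by exact_mod_cast hY
    refine ⟨by linarith, ?_⟩
    rw [hE]
    apply add_le_add _ le_rfl
    apply mul_le_mul_of_nonneg_left _ hα
    rw [div_le_iff₀ hSk]
    have e : κ * h * S ^ k = κ * (h * S ^ k) := by ring
    rw [e]
    linarith
  have hwin1 : |∑ n ∈ Icc (max (a + 1) N0).toNat b.toNat, f (F.eval (n : ℤ) + t)| ≤ 4 * E := by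
    by_cases hb0 : b ≤ 0
    · rw [Icc_eq_empty (by omega), sum_empty, abs_zero]
      positivity
    apply win_bd (fun n => F.eval (n : ℤ)) σ₁ hσ₁ N0 g hg hG1 M f hfe hf0 t _ _ (by omega) _ V E hE0
      (fun Y hY => (h1 Y (hconv Y hY).1).trans (hconv Y hY).2) (fun Y hY => (h2 Y (hconv Y hY).1).trans (hconv Y hY).2)
    · intro n hn
      rw [mem_Icc] at hn
      exact hvV n (by rw [mem_Ioc]; omega)
    · have h5 := hm b (by rw [mem_Ioc]; omega)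
      rw [abs_of_pos (by omega)] at h5
      have h6 : (b : ℝ) ≤ M := h5.trans hMS
      have h7 : b ≤ (M : ℤ) := by exact_mod_cast h6
      omega
  have hwin2 : |∑ n ∈ Icc (max (-b) N0).toNat (-a - 1).toNat, f ((F.comp (-X)).eval (n : ℤ) + t)| ≤ 4 * E := by
    by_cases hb0 : 0 ≤ a + 1
    · rw [Icc_eq_empty (by omega), sum_empty, abs_zero]
      positivity
    apply win_bd (fun n => (F.comp (-X)).eval (n : ℤ)) σ₂ hσ₂ N0 g hg hG2 M f hfe hf0 t _ _ (by omega) _ V E hE0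
      (fun Y hY => (h3 Y (hconv Y hY).1).trans (hconv Y hY).2) (fun Y hY => (h4 Y (hconv Y hY).1).trans (hconv Y hY).2)
    · intro n hn
      rw [mem_Icc] at hn
      have e : (F.comp (-X)).eval (n : ℤ) = F.eval (-(n : ℤ)) := by
        rw [eval_comp, eval_neg, eval_X]
      show |(F.comp (-X)).eval (n : ℤ) + t| ≤ V
      rw [e]
      exact hvV _ (by rw [mem_Ioc]; omega)
    · have h5 := hm (a + 1) (by rw [mem_Ioc]; omega)
      rw [abs_of_neg (by omega)] at h5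
      have h6 : ((-(a + 1) : ℤ) : ℝ) ≤ M := h5.trans hMS
      have h7 : -(a + 1) ≤ (M : ℤ) := by exact_mod_cast h6
      omega
  have hmid : |∑ m ∈ (Ioc a b).filter (fun m => ¬ (N0 : ℤ) ≤ m ∧ ¬ m ≤ -(N0 : ℤ)), f (F.eval m + t)| ≤ ε / 4 * h + ε / 8 * h := by
    rcases lt_or_ge (4 * (κ * h)) (η1 * S) with hc | hc
    · rw [filter_false_of_mem, sum_empty, abs_zero]
      · positivity
      · rintro m hm' ⟨c1, c2⟩
        have h5 := size_lo k A F hA hgr2 S x η1 hS hS1 hη1 hη11 t ht2 hX m (by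
          refine (hv m hm').trans ?_
          rw [← hS, pow_succ]
          calc κ * (h * S ^ k) = (4 * (κ * h)) * S ^ k / 4 := by ring
            _ ≤ (η1 * S) * S ^ k / 4 := by
                apply div_le_div_of_nonneg_right _ (by norm_num)
                exact mul_le_mul_of_nonneg_right hc.le hSk.le
            _ = _ := by ring)
        have h6 : η0 * S ≤ η1 / (8 * A) * S := mul_le_mul_of_nonneg_right hη0a hS0.le
        have h7 : (N0 : ℝ) ≤ ((|m| : ℤ) : ℝ) := by linarith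
        have h8 : (N0 : ℤ) ≤ |m| := by exact_mod_cast h7
        rcases abs_cases m with h9 | h9 <;> omega
    · refine (mid_card' a b N0 f hf1 F t).trans ?_
      have h5 : 2 * η0 * S ≤ ε / 4 * h := by
        have h6 : 32 * κ * η0 * S ≤ ε * (η1 * S) := by
          calc 32 * κ * η0 * S ≤ ε * η1 * S := mul_le_mul_of_nonneg_right hη0b hS0.le
            _ = _ := by ring
        have h7 : ε * (η1 * S) ≤ ε * (4 * (κ * h)) := mul_le_mul_of_nonneg_left hc hε.le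
        have h8 : κ * (32 * (η0 * S)) ≤ κ * (4 * (ε * h)) := by
          calc κ * (32 * (η0 * S)) = 32 * κ * η0 * S := by ring
            _ ≤ ε * (4 * (κ * h)) := h6.trans h7
            _ = _ := by ring
        have h9 := le_of_mul_le_mul_left h8 hκ
        linarith
      have h6 : ε * H ≤ ε * h := mul_le_mul_of_nonneg_left hHab hε.le
      linarith
  have hsplit := three_parts F (fun v => f (v + t)) a b N0 hN0
  rw [hsplit]
  have h5 := abs_add_three (∑ n ∈ Icc (max (a + 1) N0).toNat b.toNat, f (F.eval (n : ℤ) + t))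
    (∑ n ∈ Icc (max (-b) N0).toNat (-a - 1).toNat, f ((F.comp (-X)).eval (n : ℤ) + t))
    (∑ m ∈ (Ioc a b).filter (fun m => ¬ (N0 : ℤ) ≤ m ∧ ¬ m ≤ -(N0 : ℤ)), f (F.eval m + t))
  refine h5.trans ?_
  have h6 : ε * H ≤ ε * h := mul_le_mul_of_nonneg_left hHab hε.le
  have h7 : 32 * (α * κ) * h ≤ ε * h := mul_le_mul_of_nonneg_right hακ hh0.le
  have h8 : 8 * E = 8 * (α * κ * h) + 8 * β := by rw [hE]; ring
  have h9 : 0 ≤ ε * h := by positivity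
  linarith

end Pool.Agent.TH892.LW
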