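import Pool.Agent.TH892.LW.N1
import Pool.Agent.TH892.SW.S5
import Pool.Agent.H373R2.T7.SupLiou

/-!
The Liouville and the Moebius function.
-/

set_option autoImplicit false

namespace Pool.Agent.TH892.LW

open Finset
open Pool.Agent.TH204.WR (EE)
open Pool.Agent.TH892.SW (ES_nat)
open Pool.Agent.H373R2.T7 (liR muC sup_liou sup_muC SupSmall)

/-- the Liouville function on the integers, `0` at `0` -/
noncomputable def lam (v : ℤ) : ℝ := if v = 0 then 0 else (-1) ^ ArithmeticFunction.cardFactors v.natAbs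

/-- the Moebius function on the integers -/
noncomputable def mob (v : ℤ) : ℝ := ((ArithmeticFunction.moebius v.natAbs : ℤ) : ℝ)

lemma lam_abs (v : ℤ) : |lam v| ≤ 1 := by
  unfold lam
  split_ifs
  · simp
  · rw [abs_pow, abs_neg, abs_one, one_pow]

lemma mob_abs (v : ℤ) : |mob v| ≤ 1 := by
  unfold mob
  exact_mod_cast ArithmeticFunction.abs_moebius_le_one

lemma lam_neg (v : ℤ) : lam (-v) = lam v := by
  unfold lam
  simp only [Int.natAbs_neg, neg_eq_zero]

lemma mob_neg (v : ℤ) : mob (-v) = mob v := by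
  unfold mob
  rw [Int.natAbs_neg]

lemma lam_zero : lam 0 = 0 := by
  unfold lam
  rw [if_pos rfl]

lemma mob_zero : mob 0 = 0 := by
  unfold mob
  simp

theorem dav_lam : Dav lam := by
  refine ⟨lam_abs, fun A => ?_⟩
  obtain ⟨N0, h⟩ := sup_liou A
  refine ⟨N0, fun Y hY α => ?_⟩
  refine le_trans (le_of_eq ?_) (h Y hY α)
  unfold EE
  rw [ES_nat]
  congr 1
  apply sum_congr rfl
  intro n hn
  rw [mem_Icc] at hn
  congr 1
  unfold lam liR
  rw [if_neg (by exact_mod_cast (by omega : n ≠ 0)), Int.natAbs_natCast]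
  push_cast
  rfl

theorem dav_mob : Dav mob := by
  refine ⟨mob_abs, fun A => ?_⟩
  obtain ⟨N0, h⟩ := sup_muC A
  refine ⟨N0, fun Y hY α => ?_⟩
  refine le_trans (le_of_eq ?_) (h Y hY α)
  unfold EE
  rw [ES_nat]
  congr 1

end Pool.Agent.TH892.LW
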